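import Pool.Agent.W5h58.GT.Num

/-!
# Rotations, and coefficients as sums of products of roots
-/

set_option autoImplicit false

open Polynomial NumberField

namespace Pool.Agent.W5h58.GN

open Pool.Agent.W5h58.GT

/-- a permutation which maps a set into a larger one -/
theorem exists_perm_into {X : Type*} [Finite X] [DecidableEq X] (D A : Finset X)
    (h : D.card ≤ A.card) : ∃ π : Equiv.Perm X, ∀ x ∈ D, π x ∈ A := by
  classical
  obtain ⟨A', hA', hc⟩ := Finset.exists_subset_card_eq h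
  let e : {x // x ∈ D} ≃ {x // x ∈ A'} := Finset.equivOfCardEq hc.symm
  refine ⟨e.extendSubtype, fun x hx => hA' (e.extendSubtype_mem x hx)⟩

/-- **Rotations.** -/
theorem exists_perm_ge {X : Type*} [Finite X] [DecidableEq X] (f : X → ℝ) (A : Finset X)
    (hA : A.Nonempty) (l : List X) (hl : l.toFinset.card ≤ A.card) :
    ∃ π : Equiv.Perm X, (l.length : ℝ) * ∑ a ∈ A, f a ≤ A.card * (l.map fun x => f (π x)).sum := by
  classical
  obtain ⟨ρ, hρ⟩ := exists_perm_into l.toFinset A hl
  have hN : 0 < A.card := hA.card_pos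
  have : NeZero A.card := ⟨hN.ne'⟩
  let e := A.equivFin
  let τ : Fin A.card → Equiv.Perm X := fun j =>
    Equiv.Perm.ofSubtype ((e.trans (Equiv.addRight j)).trans e.symm : Equiv.Perm {x // x ∈ A})
  have hτ : ∀ j (x : X) (hx : x ∈ A), τ j x = (e.symm (e ⟨x, hx⟩ + j) : X) := by
    intro j x hx
    exact Equiv.Perm.ofSubtype_apply_of_mem _ hx
  have hsum : ∀ x ∈ A, ∑ j, f (τ j x) = ∑ a ∈ A, f a := by
    intro x hx
    have h1 : ∑ j, f (τ j x) = ∑ j, f (e.symm (e ⟨x, hx⟩ + j) : X) :=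
      Finset.sum_congr rfl fun j _ => by rw [hτ j x hx]
    have h2 : ∑ j, f (e.symm (e ⟨x, hx⟩ + j) : X) = ∑ j, f (e.symm j : X) :=
      Fintype.sum_equiv (Equiv.addLeft (e ⟨x, hx⟩)) _ _ fun j => rfl
    have h3 : ∑ j, f (e.symm j : X) = ∑ a : A, f (a : X) :=
      Fintype.sum_equiv e.symm _ _ fun j => rfl
    rw [h1, h2, h3]
    exact Finset.sum_coe_sort A f
  have htot : ∀ l' : List X, (∀ x ∈ l', ρ x ∈ A) →
      ∑ j, (l'.map fun x => f (τ j (ρ x))).sum = l'.length * ∑ a ∈ A, f a := by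
    intro l'
    induction l' with
    | nil => intro _; simp
    | cons x l' ih =>
      intro h
      simp only [List.map_cons, List.sum_cons, Finset.sum_add_distrib]
      rw [ih fun y hy => h y (List.mem_cons_of_mem _ hy), hsum _ (h x List.mem_cons_self),
        List.length_cons]
      push_cast
      ring
  have h1 := htot l fun x hx => hρ x (List.mem_toFinset.2 hx)
  obtain ⟨j, -, hj⟩ := Finset.exists_le_of_sum_le
    (f := fun _ : Fin A.card => (l.length : ℝ) * ∑ a ∈ A, f a)
    (g := fun j => (A.card : ℝ) * (l.map fun x => f (τ j (ρ x))).sum)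
    (Finset.univ_nonempty) (by
      rw [Finset.sum_const, Finset.card_univ, Fintype.card_fin, nsmul_eq_mul, ← Finset.mul_sum, h1])
  exact ⟨ρ.trans (τ j), hj⟩

section

variable {p : ℕ} {L : Type} [Field L] {N : AbsoluteValue L ℝ}

lemma exists_ge_sum (hN : IsVal p N) {α : Type*} (s : Finset α) (hs : s.Nonempty) (g : α → L) :
    ∃ a ∈ s, N (∑ a ∈ s, g a) ≤ N (g a) := by
  classical
  induction hs using Finset.Nonempty.cons_induction with
  | singleton a => exact ⟨a, Finset.mem_singleton_self a, by rw [Finset.sum_singleton]⟩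
  | cons a s ha hs ih =>
    obtain ⟨b, hb, h1⟩ := ih
    rw [Finset.sum_cons]
    rcases le_max_iff.1 (hN.add_le (g a) (∑ a ∈ s, g a)) with h2 | h2
    · exact ⟨a, Finset.mem_cons_self a s, h2⟩
    · exact ⟨b, Finset.mem_cons_of_mem hb, h2.trans h1⟩

/-- A coefficient is bounded by a product of roots. -/
lemma exists_subset_coeff (hN : IsVal p N) (s : Finset L) (r : ℕ) (hr : r ≤ s.card) :
    ∃ K ⊆ s, K.card = s.card - r ∧ N ((∏ θ ∈ s, (X - C θ)).coeff r) ≤ ∏ θ ∈ K, N θ := by
  classical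
  have h1 : (∏ θ ∈ s, (X - C θ) : L[X]).coeff r =
      (-1) ^ (s.card - r) * ∑ t ∈ s.powersetCard (s.card - r), ∏ θ ∈ t, θ := by
    have h2 := Multiset.prod_X_sub_C_coeff s.val (k := r) (by rw [Finset.card_val]; exact hr)
    have h3 := Finset.esymm_map_val (fun θ : L => θ) s (s.card - r)
    rw [Multiset.map_id'] at h3
    rw [Finset.card_val, h3] at h2
    exact h2
  obtain ⟨K, hK, h2⟩ := exists_ge_sum hN (s.powersetCard (s.card - r))
    (Finset.powersetCard_nonempty.2 (Nat.sub_le _ _)) fun t => ∏ θ ∈ t, θ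
  rw [Finset.mem_powersetCard] at hK
  refine ⟨K, hK.1, hK.2, ?_⟩
  rw [h1, map_mul, map_pow, AbsoluteValue.map_neg, map_one, one_pow, one_mul]
  exact h2.trans (le_of_eq (map_prod N _ _))

end

end Pool.Agent.W5h58.GN
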