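import Pool.Agent.W5h58.GN.Frob

/-!
# All permutations of the roots
-/

set_option autoImplicit false

namespace Pool.Agent.W5h58.GN

open Polynomial NumberField Pool.Agent.W521.Frob Pool.Agent.W521.Criterion Pool.Agent.W458.MF

/-- Every permutation of the roots of one of the polynomials is induced by an element of the Galois
group which fixes the roots of the other polynomials. -/
def HasPerms {I : Type} (h : I → ℤ[X]) (L : Type) [Field L] [NumberField L] : Prop :=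
  ∀ (i : I) (π : Equiv.Perm {θ : L // aeval θ (h i) = 0}), ∃ σ : L ≃ₐ[ℚ] L,
    (∀ θ : {θ : L // aeval θ (h i) = 0}, σ θ = π θ) ∧
      ∀ j, j ≠ i → ∀ θ : L, aeval θ (h j) = 0 → σ θ = θ

/-- The pattern with an irreducible factor of degree `a` for the index `i`, and linear factors for
the other indices. -/
def Pat {I : Type} (h : I → ℤ[X]) (i : I) (a l : ℕ) : Prop :=
  (h i).map (Int.castRingHom (ZMod l)) ∈ facSet a (h i).natDegree l ∧
    ∀ j, j ≠ i → ∃ T : Finset (ZMod l), (h j).map (Int.castRingHom (ZMod l)) = ∏ t ∈ T, (X - C t)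

variable {I : Type}

theorem hasPerms (h : I → ℤ[X]) (hm : ∀ i, (h i).Monic) (L : Type) [Field L] [NumberField L]
    [IsGalois ℚ L] (hsplit : ∀ i, ((h i).map (algebraMap ℤ L)).Splits)
    (hirr : ∀ i, 2 ≤ (h i).natDegree → ∃ l : ℕ, l.Prime ∧ Pat h i (h i).natDegree l)
    (hfix : ∀ i, 3 ≤ (h i).natDegree → ∃ l : ℕ, l.Prime ∧ Pat h i ((h i).natDegree - 1) l)
    (hswap : ∀ i, 2 ≤ (h i).natDegree → ∃ l : ℕ, l.Prime ∧ Pat h i 2 l) : HasPerms h L := by
  classical
  intro i π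
  set R : Finset L := ((h i).map (algebraMap ℤ L)).roots.toFinset with hR
  have hmem : ∀ θ : L, θ ∈ R ↔ aeval θ (h i) = 0 := by
    intro θ
    rw [hR, Multiset.mem_toFinset, mem_roots ((hm i).map _).ne_zero, IsRoot.def, eval_map]
    rfl
  have hRc : R.card ≤ (h i).natDegree := by
    refine (Multiset.toFinset_card_le _).trans ((card_roots' _).trans ?_)
    exact natDegree_map_le
  have halg : ∀ (g : L ≃ₐ[ℚ] L) (θ : L), θ ∈ R → g θ ∈ R := fun g θ hθ =>
    (hmem _).2 (aeval_alg L _ _ _ ((hmem θ).1 hθ))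
  set H : Subgroup (L ≃ₐ[ℚ] L) :=
    { carrier := {σ | ∀ j, j ≠ i → ∀ θ : L, aeval θ (h j) = 0 → σ θ = θ}
      mul_mem' := by
        intro a b ha hb j hj θ hθ
        change a (b θ) = θ
        rw [hb j hj θ hθ, ha j hj θ hθ]
      one_mem' := fun j hj θ hθ => rfl
      inv_mem' := by
        intro a ha j hj θ hθ
        have h1 := ha j hj θ hθ
        have h2 : a⁻¹ (a θ) = θ := a.symm_apply_apply θ
        rwa [h1] at h2 } with hH
  have hHm : ∀ σ, σ ∈ H ↔ ∀ j, j ≠ i → ∀ θ : L, aeval θ (h j) = 0 → σ θ = θ := fun σ => Iff.rfl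
  rcases Nat.lt_or_ge (h i).natDegree 2 with hlt | hge
  · -- degree at most one
    have hsub : ∀ x y : {θ : L // aeval θ (h i) = 0}, x = y := by
      intro x y
      have h1 : R.card ≤ 1 := by omega
      exact Subtype.ext (Finset.card_le_one.1 h1 _ ((hmem _).2 x.2) _ ((hmem _).2 y.2))
    exact ⟨1, fun θ => congrArg Subtype.val (hsub θ (π θ)), fun j hj θ hθ => rfl⟩
  -- transitivity
  obtain ⟨l₁, hl₁, hp1, hp2⟩ := hirr i hge
  obtain ⟨σ₁, A₁, a1, a2, a3, a4, a5⟩ := frob_pat h hm L hsplit i l₁ hl₁ hge hp1 hp2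
  have hAR : A₁ = R := by
    apply Finset.eq_of_subset_of_card_le
    · intro θ hθ
      exact (hmem θ).2 (a2 θ hθ)
    · rw [a1]
      exact hRc
  have hRc' : R.card = (h i).natDegree := by rw [← hAR, a1]
  have hpow : ∀ σ : L ≃ₐ[ℚ] L, σ ∈ H → ∀ g ∈ Subgroup.zpowers σ, g ∈ H := fun σ hσ g hg =>
    Subgroup.zpowers_le.2 hσ hg
  have htr : ∀ x ∈ R, ∀ y ∈ R, ∃ g ∈ H, g x = y := by
    intro x hx y hy
    rw [← hAR] at hx hy
    obtain ⟨g, hg, hgx⟩ := a4 x hx y hy
    exact ⟨g, hpow σ₁ a5 g hg, hgx⟩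
  -- the transposition
  obtain ⟨l₂, hl₂, hq1, hq2⟩ := hswap i hge
  obtain ⟨σ₀, A₀, b1, b2, b3, b4, b5⟩ := frob_pat h hm L hsplit i l₂ hl₂ le_rfl hq1 hq2
  obtain ⟨x₀, y₀, hne₀, hA₀⟩ := Finset.card_eq_two.1 b1
  have hx₀ : x₀ ∈ R := (hmem _).2 (b2 _ (by rw [hA₀]; simp))
  have hy₀ : y₀ ∈ R := (hmem _).2 (b2 _ (by rw [hA₀]; simp))
  have hsw : ∀ x ∈ A₀, ∀ y ∈ A₀, x ≠ y → σ₀ x = y := by
    intro x hx y hy hxy
    have hxR : x ∈ R := (hmem _).2 (b2 _ hx)
    have h1 : σ₀ x ≠ x := by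
      intro he
      obtain ⟨g, hg, hgx⟩ := b4 x hx y hy
      have h2 : Subgroup.zpowers σ₀ ≤ MulAction.stabilizer (L ≃ₐ[ℚ] L) x := by
        rw [Subgroup.zpowers_le]
        exact he
      have h3 : g x = x := h2 hg
      exact hxy (h3.symm.trans hgx)
    have h2 : σ₀ x ∈ A₀ := by
      by_contra hcon
      have h3 := b3 _ ((hmem _).1 (halg σ₀ x hxR)) hcon
      exact h1 (σ₀.injective h3)
    rw [hA₀, Finset.mem_insert, Finset.mem_singleton] at hx hy h2
    rcases hx with rfl | rfl <;> rcases hy with rfl | rfl <;> rcases h2 with h2 | h2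
    · exact absurd rfl hxy
    · exact absurd rfl hxy
    · exact absurd h2 h1
    · exact h2
    · exact h2
    · exact absurd h2 h1
    · exact absurd rfl hxy
    · exact absurd rfl hxy
  have hσ₀H : σ₀ ∈ H := b5
  -- double transitivity
  have h2tr : ∀ x ∈ R, ∀ y ∈ R, x ≠ y → ∃ g ∈ H, g x₀ = x ∧ g y₀ = y := by
    intro x hx y hy hxy
    rcases Nat.lt_or_ge (h i).natDegree 3 with hlt | hge3
    · obtain ⟨g, hg, hgx⟩ := htr x₀ hx₀ x hx
      refine ⟨g, hg, hgx, ?_⟩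
      have h1 : ({x, y} : Finset L) = R := by
        apply Finset.eq_of_subset_of_card_le
        · intro z hz
          rw [Finset.mem_insert, Finset.mem_singleton] at hz
          rcases hz with rfl | rfl
          · exact hx
          · exact hy
        · rw [Finset.card_pair hxy]
          omega
      have h2 := halg g y₀ hy₀
      rw [← h1, Finset.mem_insert, Finset.mem_singleton] at h2
      rcases h2 with h2 | h2
      · exact absurd (g.injective (hgx.trans h2.symm)) hne₀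
      · exact h2
    · obtain ⟨l₃, hl₃, hr1, hr2⟩ := hfix i hge3
      obtain ⟨σ₃, A₃, c1, c2, c3, c4, c5⟩ := frob_pat h hm L hsplit i l₃ hl₃ (by omega) hr1 hr2
      have hA₃R : A₃ ⊆ R := fun θ hθ => (hmem θ).2 (c2 θ hθ)
      have h1 : (R \ A₃).card = 1 := by
        have h2 := Finset.card_sdiff_add_card_eq_card hA₃R
        omega
      obtain ⟨ϑ, hϑ⟩ := Finset.card_eq_one.1 h1
      have hϑR : ϑ ∈ R := (Finset.mem_sdiff.1 (by rw [hϑ]; exact Finset.mem_singleton_self ϑ)).1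
      have hϑA : ϑ ∉ A₃ := (Finset.mem_sdiff.1 (by rw [hϑ]; exact Finset.mem_singleton_self ϑ)).2
      have hinA : ∀ z ∈ R, z ≠ ϑ → z ∈ A₃ := by
        intro z hz hzϑ
        by_contra hcon
        have h3 : z ∈ R \ A₃ := Finset.mem_sdiff.2 ⟨hz, hcon⟩
        rw [hϑ, Finset.mem_singleton] at h3
        exact hzϑ h3
      have hσϑ : σ₃ ϑ = ϑ := c3 ϑ ((hmem _).1 hϑR) hϑA
      obtain ⟨g, hg, hgx⟩ := htr x₀ hx₀ ϑ hϑR
      obtain ⟨g', hg', hgx'⟩ := htr x hx ϑ hϑR
      have h3 : g y₀ ≠ ϑ := fun he => hne₀ (g.injective (hgx.trans he.symm))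
      have h4 : g' y ≠ ϑ := fun he => hxy (g'.injective (hgx'.trans he.symm))
      obtain ⟨τ, hτ, hτy⟩ := c4 _ (hinA _ (halg g y₀ hy₀) h3) _ (hinA _ (halg g' y hy) h4)
      have hτϑ : τ ϑ = ϑ := by
        have h5 : Subgroup.zpowers σ₃ ≤ MulAction.stabilizer (L ≃ₐ[ℚ] L) ϑ := by
          rw [Subgroup.zpowers_le]
          exact hσϑ
        exact h5 hτ
      refine ⟨g'⁻¹ * τ * g, H.mul_mem (H.mul_mem (H.inv_mem hg') (hpow σ₃ c5 τ hτ)) hg, ?_, ?_⟩
      · change g'.symm (τ (g x₀)) = x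
        rw [hgx, hτϑ, ← hgx', g'.symm_apply_apply]
      · change g'.symm (τ (g y₀)) = y
        rw [hτy, g'.symm_apply_apply]
  -- the swaps
  have hfinX : Finite {θ : L // aeval θ (h i) = 0} :=
    Finite.of_injective (fun θ => (⟨θ.1, (hmem _).2 θ.2⟩ : R)) fun x y hxy =>
      Subtype.ext (congrArg (fun z : R => z.1) hxy)
  have : Fintype {θ : L // aeval θ (h i) = 0} := Fintype.ofFinite _
  suffices hs : ∃ σ ∈ H, ∀ θ : {θ : L // aeval θ (h i) = 0}, σ θ = π θ by
    obtain ⟨σ, hσ, h1⟩ := hs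
    exact ⟨σ, h1, hσ⟩
  induction π using Equiv.Perm.swap_induction_on with
  | one => exact ⟨1, H.one_mem, fun θ => rfl⟩
  | swap_mul f x y hxy ih =>
    obtain ⟨σ, hσ, h1⟩ := ih
    obtain ⟨g, hg, hgx, hgy⟩ := h2tr x ((hmem _).2 x.2) y ((hmem _).2 y.2)
      (fun he => hxy (Subtype.ext he))
    refine ⟨g * σ₀ * g⁻¹ * σ, H.mul_mem (H.mul_mem (H.mul_mem hg hσ₀H) (H.inv_mem hg)) hσ, ?_⟩
    intro θ
    change g (σ₀ (g.symm (σ θ))) = _
    rw [h1 θ]
    rw [Equiv.Perm.mul_apply]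
    have hxA : x₀ ∈ A₀ := by rw [hA₀]; simp
    have hyA : y₀ ∈ A₀ := by rw [hA₀]; simp
    by_cases hfx : f θ = x
    · rw [hfx, Equiv.swap_apply_left]
      have h2 : g.symm (x : L) = x₀ := by rw [← hgx, g.symm_apply_apply]
      rw [h2, hsw x₀ hxA y₀ hyA hne₀, hgy]
    · by_cases hfy : f θ = y
      · rw [hfy, Equiv.swap_apply_right]
        have h2 : g.symm (y : L) = y₀ := by rw [← hgy, g.symm_apply_apply]
        rw [h2, hsw y₀ hyA x₀ hxA hne₀.symm, hgx]
      · rw [Equiv.swap_apply_of_ne_of_ne hfx hfy]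
        have h2 : g.symm (f θ : L) ∉ A₀ := by
          intro hcon
          rw [hA₀, Finset.mem_insert, Finset.mem_singleton] at hcon
          rcases hcon with hcon | hcon
          · apply hfx
            apply Subtype.ext
            rw [← hgx, ← hcon, g.apply_symm_apply]
          · apply hfy
            apply Subtype.ext
            rw [← hgy, ← hcon, g.apply_symm_apply]
        rw [b3 _ ((hmem _).1 (halg g.symm _ ((hmem _).2 (f θ).2))) h2, g.apply_symm_apply]

end Pool.Agent.W5h58.GN
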