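import Pool.Agent.W5h58.GT.Avg
import Pool.Agent.W5h58.GN.Comb
import Pool.Agent.W5h58.GN.Perm

/-!
# Slopes and the integrality of products of Frobenius eigenvalues: sums of the smallest slopes
-/

set_option autoImplicit false

open Polynomial NumberField

namespace Pool.Agent.W5h58.GN

open Pool.Agent.W458.MF Pool.Agent.W521.Frob Pool.Agent.W521.Criterion Pool.Agent.W338.MF
  Pool.Agent.W928.MF Pool.Agent.W5h58.GT

open Classical in
/-- The logarithm of the larger one of the absolute values of `α` and `q / α` for `y = α + q / α`,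
and of the smaller one for the absorbing root. -/
noncomputable def fval {I L : Type} [Field L] (N : AbsoluteValue L ℝ) (q : I → ℕ) (o : I → Prop)
    (ϑ : I → L) (i : I) (y : L) : ℝ :=
  if o i ∧ y = ϑ i then
    Real.log (N (q i : L)) - Real.log (max (N y) (Real.sqrt (N (q i : L))))
  else Real.log (max (N y) (Real.sqrt (N (q i : L))))

section aut

variable {I : Type} {q : I → ℕ} {h : I → ℤ[X]} {p m : ℕ} {L : Type} [Field L] [NumberField L]
  [IsGalois ℚ L]

/-- **The inequality for one automorphism.** -/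
theorem one_aut (hp : p.Prime) (d : I → ℕ) (hqd : ∀ i, q i = p ^ (d i * m))
    (hm : ∀ i, (h i).Monic) {N : AbsoluteValue L ℝ} (hN : IsVal p N) {o : I → Prop} {ϑ : I → L}
    (hkey : ∀ i, ∀ α : L, aeval α (weil (q i) (h i)) = 0 → ¬ Abs q o ϑ i α → FlpAbs q h o ϑ i α)
    (l : List (I × L)) (hl : ∀ x ∈ l, aeval x.2 (weil (q x.1) (h x.1)) = 0)
    (hno : ∀ x ∈ l, (x.1, (q x.1 : L) / x.2) ∉ l) (t : ℕ) (ht : 0 < t) (c : ℕ)
    (hint : IsIntegral ℤ ((l.map fun x => x.2 ^ t).prod / (p : L) ^ (m * t * c)))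
    (σ : L ≃ₐ[ℚ] L) :
    (l.map fun x => fval N q o ϑ x.1 (σ (x.2 + q x.1 / x.2))).sum ≤
      -((m : ℝ) * c * Real.log p) := by
  classical
  have hq : ∀ i, q i ≠ 0 := fun i => by rw [hqd i]; exact pow_ne_zero _ hp.pos.ne'
  have hp0 : (0 : ℝ) < p := by exact_mod_cast hp.pos
  have hNq : ∀ i, N ((q i : ℕ) : L) = (p : ℝ)⁻¹ ^ (d i * m) := by
    intro i
    rw [hqd i, Nat.cast_pow, map_pow, hN.p_eq]
  have hNq0 : ∀ i, 0 < N ((q i : ℕ) : L) := fun i => by rw [hNq]; positivity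
  set ρ : I → ℝ := fun i => Real.sqrt (N ((q i : ℕ) : L)) with hρ
  have hρ0 : ∀ i, 0 < ρ i := fun i => Real.sqrt_pos.2 (hNq0 i)
  set S : I → L → ℝ := fun i y => max (N y) (ρ i) with hS
  have hS0 : ∀ i y, 0 < S i y := fun i y => lt_max_of_lt_right (hρ0 i)
  set l' : List (I × L) := l.map fun x => (x.1, σ x.2) with hl'
  have hroot : ∀ x ∈ l', aeval x.2 (weil (q x.1) (h x.1)) = 0 := by
    intro x hx
    obtain ⟨y, hy, rfl⟩ := List.mem_map.1 hx
    exact aeval_alg L _ _ _ (hl y hy)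
  have hno' : ∀ x ∈ l', (x.1, (q x.1 : L) / x.2) ∉ l' := by
    intro x hx hc
    obtain ⟨y, hy, rfl⟩ := List.mem_map.1 hx
    obtain ⟨z, hz, hzy⟩ := List.mem_map.1 hc
    rw [Prod.mk.injEq] at hzy
    obtain ⟨e1, e2⟩ := hzy
    dsimp only at e1 e2
    apply hno y hy
    have e3 : z.2 = (q y.1 : L) / y.2 := by
      apply σ.injective
      rw [e2, map_div₀, map_natCast]
    rw [← e3, ← e1]
    exact hz
  obtain ⟨τ, hτ⟩ := exists_max hq hm hkey N l' hroot hno'
  have h3 : N (τ (σ ((l.map fun x => x.2 ^ t).prod / (p : L) ^ (m * t * c)))) ≤ 1 := by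
    apply hN.int_le
    exact (hint.map (σ.toAlgHom.restrictScalars ℤ)).map (τ.toAlgHom.restrictScalars ℤ)
  rw [map_div₀, map_div₀, map_div₀, map_pow, map_pow, map_natCast, map_natCast, map_pow,
    hN.p_eq, div_le_one (by positivity)] at h3
  have hNpos : ∀ x ∈ l, 0 < N (τ (σ x.2)) := by
    intro x hx
    have ha0 : x.2 ≠ 0 := root_ne_zero (hq _) (hm _) (hl x hx)
    exact N.pos ((map_ne_zero τ).2 ((map_ne_zero σ).2 ha0))
  have h4 : ∀ k : List (I × L), (∀ x ∈ k, x ∈ l) →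
      0 < N (τ (σ (k.map fun x => x.2 ^ t).prod)) ∧
      Real.log (N (τ (σ (k.map fun x => x.2 ^ t).prod))) =
        t * (k.map fun x => Real.log (N (τ (σ x.2)))).sum := by
    intro k
    induction k with
    | nil => intro _; simp
    | cons a k ih =>
      intro hk
      obtain ⟨i1, i2⟩ := ih fun x hx => hk x (List.mem_cons_of_mem _ hx)
      have i3 := hNpos a (hk a List.mem_cons_self)
      rw [List.map_cons, List.prod_cons, map_mul, map_mul, map_mul, List.map_cons,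
        List.sum_cons, Real.log_mul _ i1.ne', i2, map_pow, map_pow, map_pow, Real.log_pow]
      · exact ⟨mul_pos (pow_pos i3 _) i1, by ring⟩
      · rw [map_pow, map_pow, map_pow]
        exact (pow_pos i3 _).ne'
  obtain ⟨h5, h6⟩ := h4 l fun x hx => hx
  have h7 := Real.log_le_log h5 h3
  rw [h6, Real.log_pow, Real.log_inv] at h7
  have h8 : (l.map fun x => Real.log (N (τ (σ x.2)))).sum ≤ -((m : ℝ) * c * Real.log p) := by
    have htR : (0 : ℝ) < t := by exact_mod_cast ht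
    rw [← mul_le_mul_iff_right₀ htR]
    refine h7.trans (le_of_eq ?_)
    push_cast
    ring
  refine le_trans (List.sum_le_sum ?_) h8
  intro x hx
  have ha0 : σ x.2 ≠ 0 := (map_ne_zero σ).2 (root_ne_zero (hq _) (hm _) (hl x hx))
  obtain ⟨i4, i5⟩ := hτ (x.1, σ x.2) (List.mem_map.2 ⟨x, hx, rfl⟩)
  dsimp only at i4 i5
  have e0 : σ (x.2 + q x.1 / x.2) = σ x.2 + q x.1 / σ x.2 := by
    rw [map_add, map_div₀, map_natCast]
  rw [e0, fval]
  split_ifs with hcase
  · -- the absorbing root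
    have i6 : max (N (σ x.2)) (N ((q x.1 : L) / σ x.2)) ≤ S x.1 (σ x.2 + q x.1 / σ x.2) :=
      max_le' hN ha0
    have hNσ : 0 < N (σ x.2) := N.pos ha0
    have hNσ' : 0 < N ((q x.1 : L) / σ x.2) :=
      N.pos (div_ne_zero (by exact_mod_cast hq x.1) ha0)
    have i7 : N (q x.1 : L) = N (σ x.2) * N ((q x.1 : L) / σ x.2) := by
      rw [← map_mul]
      congr 1
      field_simp
    have i8 := Real.log_mul hNσ.ne' hNσ'.ne'
    rw [← i7] at i8
    rcases i4 with e | e
    · rw [e]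
      have i9 : Real.log (N ((q x.1 : L) / σ x.2)) ≤ Real.log (S x.1 (σ x.2 + q x.1 / σ x.2)) :=
        Real.log_le_log hNσ' ((le_max_right _ _).trans i6)
      linarith
    · rw [e]
      have i9 : Real.log (N (σ x.2)) ≤ Real.log (S x.1 (σ x.2 + q x.1 / σ x.2)) :=
        Real.log_le_log hNσ ((le_max_left _ _).trans i6)
      linarith
  · refine Real.log_le_log (hS0 _ _) (le_trans ?_ (i5 ?_))
    · exact max_ge hN ha0
    · intro hab
      exact hcase hab

end aut

/-- The sum of the `n` smallest of the smaller slopes is at most `w` (for `n < g`; for `n ≥ g` it is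
`n` times the average); `x = 1` if there is an absorbing root, otherwise `x = 0`. -/
def NewtonLe (p d m : ℕ) (h : ℤ[X]) (n : ℕ) (x w : ℝ) : Prop :=
  ∀ s : ℝ, 0 ≤ s → 2 * s ≤ d → ∃ r : ℕ, h.coeff r ≠ 0 ∧
    (n < h.natDegree →
      (padicValInt p (h.coeff r) : ℝ) + ((n : ℝ) + r - h.natDegree) * (s * m) ≤ w * m) ∧
    (h.natDegree ≤ n →
      n * ((padicValInt p (h.coeff r) : ℝ) + r * (s * m) + x * ((d - 2 * s) * m)) ≤
        w * h.natDegree * m)

lemma newtonLe_nonneg {p d m : ℕ} {h : ℤ[X]} {n : ℕ} {x w : ℝ} (hm0 : 0 < m)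
    (hd : 0 < h.natDegree) (hx : 0 ≤ x) (hw : NewtonLe p d m h n x w) : 0 ≤ w := by
  obtain ⟨r, -, h1, h2⟩ := hw 0 le_rfl (by simp)
  have hmR : (0 : ℝ) < m := by exact_mod_cast hm0
  have hdR : (0 : ℝ) < h.natDegree := by exact_mod_cast hd
  rcases Nat.lt_or_ge n h.natDegree with h3 | h3
  · have h4 := h1 h3
    have h5 : (0 : ℝ) ≤ w * m := by
      refine le_trans ?_ h4
      have : (0 : ℝ) ≤ (padicValInt p (h.coeff r) : ℝ) := by positivity
      linarith
    exact nonneg_of_mul_nonneg_left h5 hmR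
  · have h4 := h2 h3
    have h5 : (0 : ℝ) ≤ w * h.natDegree * m := by
      refine le_trans ?_ h4
      have e : ((d : ℝ) - 2 * 0) = d := by ring
      rw [e]
      positivity
    have h6 : 0 ≤ w * h.natDegree := nonneg_of_mul_nonneg_left h5 hmR
    exact nonneg_of_mul_nonneg_left h6 hdR

/-- the threshold inequality -/
lemma threshold {α : Type*} [DecidableEq α] (F : α → ℝ) (A K : Finset α) (c : ℝ)
    (hA : ∀ a ∈ A, c ≤ F a) (hK : ∀ a ∈ K, a ∉ A → F a ≤ c) :
    ∑ a ∈ K, F a + ((A.card : ℝ) - K.card) * c ≤ ∑ a ∈ A, F a := by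
  have h1 : ∑ a ∈ K, (F a - c) ≤ ∑ a ∈ A, (F a - c) := by
    calc ∑ a ∈ K, (F a - c) = ∑ a ∈ K \ A, (F a - c) + ∑ a ∈ K ∩ A, (F a - c) := by
          rw [← Finset.sum_union (Finset.disjoint_sdiff_inter K A), Finset.sdiff_union_inter]
      _ ≤ 0 + ∑ a ∈ A, (F a - c) := by
          refine add_le_add ?_ ?_
          · refine Finset.sum_nonpos fun a ha => ?_
            rw [Finset.mem_sdiff] at ha
            linarith [hK a ha.1 ha.2]
          · exact Finset.sum_le_sum_of_subset_of_nonneg Finset.inter_subset_right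
              fun a ha _ => by linarith [hA a ha]
      _ = _ := zero_add _
  rw [Finset.sum_sub_distrib, Finset.sum_sub_distrib, Finset.sum_const, Finset.sum_const,
    nsmul_eq_mul, nsmul_eq_mul] at h1
  linarith

/-- a set of `n` elements with the largest values -/
lemma exists_top {α : Type*} [DecidableEq α] (F : α → ℝ) (R : Finset α) (n : ℕ) (hn : n ≤ R.card) :
    ∃ A ⊆ R, A.card = n ∧ ∀ a ∈ A, ∀ b ∈ R, b ∉ A → F b ≤ F a := by
  obtain ⟨A, hA, hmax⟩ := Finset.exists_max_image (R.powersetCard n) (fun A => ∑ a ∈ A, F a)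
    (Finset.powersetCard_nonempty.2 hn)
  rw [Finset.mem_powersetCard] at hA
  refine ⟨A, hA.1, hA.2, fun a ha b hb hbA => ?_⟩
  have hbe : b ∉ A.erase a := fun h => hbA (Finset.mem_of_mem_erase h)
  have h1 := hmax (insert b (A.erase a)) (by
    rw [Finset.mem_powersetCard]
    refine ⟨?_, ?_⟩
    · intro c hc
      rcases Finset.mem_insert.1 hc with rfl | hc
      · exact hb
      · exact hA.1 (Finset.mem_of_mem_erase hc)
    · rw [Finset.card_insert_of_notMem hbe, Finset.card_erase_of_mem ha, hA.2]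
      have : 0 < A.card := Finset.card_pos.2 ⟨a, ha⟩
      omega)
  rw [Finset.sum_insert hbe] at h1
  have h2 := Finset.sum_erase_add A F ha
  linarith

section member

variable {p : ℕ} {L : Type} [Field L] {N : AbsoluteValue L ℝ}

/-- **The bound for one member.** -/
theorem member_ge (hN : IsVal p N) (hp : p.Prime) [CharZero L] {d m : ℕ} (hm0 : 0 < m) {h : ℤ[X]}
    (R : Finset L) (hR : h.map (algebraMap ℤ L) = ∏ θ ∈ R, (X - C θ))
    (hRc : R.card = h.natDegree) (hg : 0 < h.natDegree) {n : ℕ} {x w : ℝ}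
    (hw : NewtonLe p d m h n x w) (hint : ∀ θ ∈ R, IsIntegral ℤ θ) {ϑ : L} (hϑ : ϑ ∈ R)
    (hmin : ∀ θ ∈ R, max (N ϑ) (Real.sqrt (N ((p ^ (d * m) : ℕ) : L))) ≤
      max (N θ) (Real.sqrt (N ((p ^ (d * m) : ℕ) : L)))) {o : Prop} (hx : 0 ≤ x)
    (ho : o → x = 1) (f : L → ℝ)
    (hf1 : ∀ θ, ¬ (o ∧ θ = ϑ) → f θ = Real.log (max (N θ) (Real.sqrt (N ((p ^ (d * m) : ℕ) : L)))))
    (hf2 : o → f ϑ = Real.log (N ((p ^ (d * m) : ℕ) : L)) -
      Real.log (max (N ϑ) (Real.sqrt (N ((p ^ (d * m) : ℕ) : L))))) :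
    ∃ A ⊆ R, A.Nonempty ∧ (n ≤ A.card ∨ A = R) ∧
      ∀ n' : ℕ, n' ≤ n → -(w * m * Real.log p) * A.card ≤ n' * ∑ θ ∈ A, f θ := by
  classical
  set ρ := Real.sqrt (N ((p ^ (d * m) : ℕ) : L)) with hρ
  set F : L → ℝ := fun θ => Real.log (max (N θ) ρ) with hF
  have hp0 : (0 : ℝ) < p := by exact_mod_cast hp.pos
  have hlog : 0 < Real.log p := Real.log_pos (by exact_mod_cast hp.one_lt)
  have hmR : (0 : ℝ) < m := by exact_mod_cast hm0
  have hNp : N ((p ^ (d * m) : ℕ) : L) = (p : ℝ)⁻¹ ^ (d * m) := by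
    rw [Nat.cast_pow, map_pow, hN.p_eq]
  have hρ0 : 0 < ρ := by
    rw [hρ, hNp]
    exact Real.sqrt_pos.2 (by positivity)
  have hlρ : Real.log ρ = -(d * m * Real.log p) / 2 := by
    rw [hρ, Real.log_sqrt (by rw [hNp]; positivity), hNp, Real.log_pow, Real.log_inv]
    push_cast
    ring
  have hlN : Real.log (N ((p ^ (d * m) : ℕ) : L)) = -(d * m * Real.log p) := by
    rw [hNp, Real.log_pow, Real.log_inv]
    push_cast
    ring
  have hρ1 : ρ ≤ 1 := by
    have h1 : Real.log ρ ≤ 0 := by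
      rw [hlρ]
      have : (0 : ℝ) ≤ d * m * Real.log p := by positivity
      linarith
    exact (Real.log_nonpos_iff hρ0.le).1 h1
  have hS0 : ∀ θ, 0 < max (N θ) ρ := fun θ => lt_max_of_lt_right hρ0
  have hFρ : ∀ θ, Real.log ρ ≤ F θ := fun θ => Real.log_le_log hρ0 (le_max_right _ _)
  have hF0 : ∀ θ ∈ R, F θ ≤ 0 := fun θ hθ =>
    Real.log_nonpos (hS0 θ).le (max_le (hN.int_le θ (hint θ hθ)) hρ1)
  have hFmin : ∀ θ ∈ R, F ϑ ≤ F θ := fun θ hθ => Real.log_le_log (hS0 ϑ) (hmin θ hθ)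
  have hw0 : 0 ≤ w := newtonLe_nonneg hm0 hg hx hw
  -- the sets of roots from the coefficients
  have hK : ∀ r : ℕ, h.coeff r ≠ 0 → ∃ K ⊆ R, r + K.card = h.natDegree ∧
      -((padicValInt p (h.coeff r) : ℝ) * Real.log p) ≤ ∑ θ ∈ K, F θ := by
    intro r hr
    have hrg : r ≤ h.natDegree := le_natDegree_of_ne_zero hr
    obtain ⟨K, hKR, hKc, hKN⟩ := exists_subset_coeff hN R r (by rw [hRc]; exact hrg)
    refine ⟨K, hKR, by omega, ?_⟩
    rw [← hR, coeff_map, eq_intCast] at hKN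
    have h1 := (val_int hN hp (h.coeff r) hr).trans hKN
    have h2 : ∏ θ ∈ K, N θ ≤ ∏ θ ∈ K, max (N θ) ρ :=
      Finset.prod_le_prod (fun θ _ => N.nonneg _) fun θ _ => le_max_left _ _
    have h3 := Real.log_le_log (by positivity) (h1.trans h2)
    rw [Real.log_pow, Real.log_inv, Real.log_prod (fun θ _ => (hS0 θ).ne')] at h3
    linarith
  -- the slope of an element
  have hs : ∀ θ ∈ R, ∃ s : ℝ, 0 ≤ s ∧ 2 * s ≤ d ∧ F θ = -(s * m * Real.log p) := by
    intro θ hθ
    refine ⟨-F θ / (m * Real.log p), ?_, ?_, ?_⟩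
    · exact div_nonneg (by linarith [hF0 θ hθ]) (by positivity)
    · rw [mul_div_assoc', div_le_iff₀ (by positivity)]
      have h1 := hFρ θ
      rw [hlρ] at h1
      linarith
    · field_simp
  rcases Nat.eq_zero_or_pos n with hn0 | hn0
  · subst hn0
    refine ⟨R, Finset.Subset.refl _, ⟨ϑ, hϑ⟩, Or.inr rfl, fun n' hn' => ?_⟩
    have : n' = 0 := by omega
    subst this
    rw [Nat.cast_zero, zero_mul]
    have : (0 : ℝ) ≤ w * m * Real.log p * R.card := by positivity
    linarith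
  rcases Nat.lt_or_ge n h.natDegree with hlt | hge
  · -- less than `g` roots
    obtain ⟨A, hAR, hAc, hAtop⟩ := exists_top F (R.erase ϑ) n (by
      rw [Finset.card_erase_of_mem hϑ, hRc]
      omega)
    have hAR' : A ⊆ R := hAR.trans (Finset.erase_subset _ _)
    have hϑA : ϑ ∉ A := fun h => Finset.notMem_erase ϑ R (hAR h)
    have hAne : A.Nonempty := Finset.card_pos.1 (by omega)
    obtain ⟨θ₀, hθ₀, hθ₀min⟩ := Finset.exists_min_image A F hAne
    have hfA : ∑ θ ∈ A, f θ = ∑ θ ∈ A, F θ := by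
      refine Finset.sum_congr rfl fun θ hθ => ?_
      rw [hf1 θ]
      rintro ⟨-, rfl⟩
      exact hϑA hθ
    obtain ⟨s, hs0, hsd, hsF⟩ := hs θ₀ (hAR' hθ₀)
    obtain ⟨r, hr, h1, -⟩ := hw s hs0 hsd
    obtain ⟨K, hKR, hKc, hKs⟩ := hK r hr
    have h2 := threshold F A K (F θ₀) hθ₀min (by
      intro a ha haA
      by_cases haϑ : a = ϑ
      · rw [haϑ]
        exact hFmin θ₀ (hAR' hθ₀)
      · exact hAtop θ₀ hθ₀ a (Finset.mem_erase.2 ⟨haϑ, hKR ha⟩) haA)
    have h3 := h1 hlt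
    have e1 : (K.card : ℝ) = h.natDegree - r := by
      have : ((r + K.card : ℕ) : ℝ) = (h.natDegree : ℝ) := by exact_mod_cast hKc
      push_cast at this
      linarith
    rw [e1, hsF, hAc] at h2
    have h4 : -(w * m * Real.log p) ≤ ∑ θ ∈ A, F θ := by
      have h5 := mul_le_mul_of_nonneg_right h3 hlog.le
      nlinarith
    have h5 : ∑ θ ∈ A, F θ ≤ 0 := Finset.sum_nonpos fun θ hθ => hF0 θ (hAR' hθ)
    refine ⟨A, hAR', hAne, Or.inl hAc.ge, fun n' hn' => ?_⟩
    rw [hfA, hAc]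
    have h6 : (n' : ℝ) ≤ n := by exact_mod_cast hn'
    have h7 : (0 : ℝ) ≤ n := by positivity
    calc -(w * m * Real.log p) * (n : ℝ) ≤ (∑ θ ∈ A, F θ) * n := mul_le_mul_of_nonneg_right h4 h7
      _ ≤ n' * ∑ θ ∈ A, F θ := by nlinarith
  · -- all roots
    obtain ⟨s, hs0, hsd, hsF⟩ := hs ϑ hϑ
    obtain ⟨r, hr, -, h1⟩ := hw s hs0 hsd
    obtain ⟨K, hKR, hKc, hKs⟩ := hK r hr
    have h2 := threshold F R K (F ϑ) hFmin (fun a ha haR => absurd (hKR ha) haR)
    have h3 := h1 hge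
    have e1 : (K.card : ℝ) = h.natDegree - r := by
      have : ((r + K.card : ℕ) : ℝ) = (h.natDegree : ℝ) := by exact_mod_cast hKc
      push_cast at this
      linarith
    rw [e1, hRc] at h2
    have hds : 0 ≤ ((d : ℝ) - 2 * s) * m := mul_nonneg (by linarith) hmR.le
    have hsum : ∑ θ ∈ R, F θ - x * (((d : ℝ) - 2 * s) * m) * Real.log p ≤ ∑ θ ∈ R, f θ ∧
        ∑ θ ∈ R, f θ ≤ 0 := by
      by_cases hoo : o
      · have e2 := Finset.sum_erase_add R f hϑ
        have e3 := Finset.sum_erase_add R F hϑ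
        have e4 : ∑ θ ∈ R.erase ϑ, f θ = ∑ θ ∈ R.erase ϑ, F θ := by
          refine Finset.sum_congr rfl fun θ hθ => ?_
          rw [hf1 θ]
          rintro ⟨-, rfl⟩
          exact Finset.notMem_erase _ _ hθ
        have e5 := hf2 hoo
        have e6 : Real.log (max (N ϑ) ρ) = F ϑ := rfl
        rw [hlN, e6] at e5
        have e7 : ∑ θ ∈ R.erase ϑ, F θ ≤ 0 := Finset.sum_nonpos fun θ hθ =>
          hF0 θ (Finset.mem_of_mem_erase hθ)
        rw [ho hoo]
        refine ⟨?_, ?_⟩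
        · rw [← e2, ← e3, e4, e5, hsF]
          linarith
        · rw [← e2, e4, e5, hsF]
          have e8 : 0 ≤ ((d : ℝ) * m - s * m) * Real.log p := by
            apply mul_nonneg _ hlog.le
            have : 0 ≤ s * m := by positivity
            nlinarith
          nlinarith
      · have e4 : ∑ θ ∈ R, f θ = ∑ θ ∈ R, F θ :=
          Finset.sum_congr rfl fun θ hθ => hf1 θ fun h => hoo h.1
        rw [e4]
        refine ⟨?_, Finset.sum_nonpos fun θ hθ => hF0 θ hθ⟩
        have : 0 ≤ x * (((d : ℝ) - 2 * s) * m) * Real.log p := by positivity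
        linarith
    refine ⟨R, Finset.Subset.refl _, ⟨ϑ, hϑ⟩, Or.inr rfl, fun n' hn' => ?_⟩
    have h6 : (n' : ℝ) ≤ n := by exact_mod_cast hn'
    have h7 : (0 : ℝ) ≤ n := by positivity
    have h8 : -((padicValInt p (h.coeff r) : ℝ) + r * (s * m) + x * ((d - 2 * s) * m)) *
        Real.log p ≤ ∑ θ ∈ R, f θ := by
      rw [hsF] at h2
      have := hsum.1
      nlinarith
    have h9 : -(w * m * Real.log p) * (h.natDegree : ℝ) ≤ n * ∑ θ ∈ R, f θ := by
      have h10 := mul_le_mul_of_nonneg_left h8 h7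
      have h11 := mul_le_mul_of_nonneg_right h3 hlog.le
      nlinarith
    rw [hRc]
    refine h9.trans ?_
    have := hsum.2
    nlinarith

end member

end Pool.Agent.W5h58.GN
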