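import Pool.Agent.W32.MF.OCNTF
import Pool.Agent.W959.MF.OCNTI

/-!
# The number of products of different linear factors and of an irreducible polynomial
-/

set_option autoImplicit false

open Polynomial

namespace Pool.Agent.W5h58.GN

open Pool.Agent.W458.MF Pool.Agent.W32.MF

/-- Products of different linear factors and of a monic irreducible polynomial of degree `a`. -/
def facSet (a g l : ℕ) : Set (ZMod l)[X] :=
  {f | ∃ (T : Finset (ZMod l)) (v : (ZMod l)[X]), v.Monic ∧ v.natDegree = a ∧ Irreducible v ∧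
    T.card + a = g ∧ f = (∏ t ∈ T, (X - C t)) * v}

variable {l : ℕ} [Fact l.Prime]

/-- multiplication by a split linear factor -/
theorem mul_halved (h : St_WM) (g r : ℕ) (κ : (ZMod l)ˣ) (hr : (r : ZMod l) ≠ 0) (s : ZMod l)
    (hs : s ≠ 0) (v : (ZMod l)[X]) (hvh : v ∈ halved g l r κ)
    (hs2 : (s ^ 2) ^ 2 ≠ 1)
    (hvt : v.eval ((r : ZMod l) * (s ^ 2 + (s ^ 2)⁻¹)) ≠ 0) :
    (X - C ((r : ZMod l) * (s ^ 2 + (s ^ 2)⁻¹))) * v ∈ halved (g + 1) l r κ := by
  obtain ⟨hvm, hvd, hvsq, f, hfm, hfd, hf0, hfs, hfe⟩ := hvh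
  set ρ : ZMod l := (r : ZMod l) with hρ
  obtain ⟨b, hb⟩ : ∃ b : ZMod l, b = s ^ 2 := ⟨_, rfl⟩
  rw [← hb] at hs2 hvt ⊢
  have hb0 : b ≠ 0 := by
    rw [hb]
    exact pow_ne_zero _ hs
  obtain ⟨t, ht⟩ : ∃ t : ZMod l, t = ρ * (b + b⁻¹) := ⟨_, rfl⟩
  rw [← ht] at hvt ⊢
  obtain ⟨a, ha⟩ : ∃ a : ZMod l, a = ρ * b := ⟨_, rfl⟩
  obtain ⟨a', ha'⟩ : ∃ a' : ZMod l, a' = ρ * b⁻¹ := ⟨_, rfl⟩
  have ha0 : a ≠ 0 := by
    rw [ha]
    exact mul_ne_zero hr hb0
  have ha0' : a' ≠ 0 := by
    rw [ha']
    exact mul_ne_zero hr (inv_ne_zero hb0)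
  have haa : a * a' = ρ ^ 2 := by
    rw [ha, ha']
    field_simp
  have hat : a + a' = t := by
    rw [ha, ha', ht]
    ring
  have hne : a ≠ a' := by
    intro h1
    apply hs2
    rw [ha, ha'] at h1
    have h2 : b = b⁻¹ := mul_left_cancel₀ hr h1
    rw [sq]
    nth_rw 2 [h2]
    exact mul_inv_cancel₀ hb0
  obtain ⟨hwm, hwl, hwd, -, -⟩ := h l Fact.out (ρ ^ 2)
  have hmon : ((X - C t) * v).Monic := (monic_X_sub_C t).mul hvm
  have hdeg : ((X - C t) * v).natDegree = g + 1 := by
    rw [(monic_X_sub_C t).natDegree_mul hvm, natDegree_X_sub_C, hvd]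
    ring
  have hw1 : weilm (ρ ^ 2) (X - C t) = (X - C a) * (X - C a') := by
    rw [hwl, ← hat, ← haa, C_add, C_mul]
    ring
  have hnr : ∀ z, z ^ 2 + ρ ^ 2 = z * t → z ≠ 0 → (weilm (ρ ^ 2) v).eval z ≠ 0 := by
    intro z hz hz0
    rw [eval_weilm (ρ ^ 2) z t hz v]
    exact mul_ne_zero (pow_ne_zero _ hz0) hvt
  have hz1 := hnr a (by rw [← haa, ← hat]; ring) ha0
  have hz2 := hnr a' (by rw [← haa, ← hat]; ring) ha0'
  refine ⟨hmon, hdeg, ?_, (X - C a) * f,
    (monic_X_sub_C a).mul hfm, ?_, ?_, ?_, ?_⟩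
  · rw [hwm _ _ (monic_X_sub_C t) hvm, hw1, mul_assoc]
    have hirr : ∀ z : ZMod l, Irreducible (X - C z) := fun z => irreducible_X_sub_C z
    rw [squarefree_mul_iff, squarefree_mul_iff]
    refine ⟨?_, (hirr a).squarefree, ?_, (hirr a').squarefree, hvsq⟩
    · rw [(hirr a).isRelPrime_iff_not_dvd, dvd_iff_isRoot, IsRoot.def, eval_mul, eval_sub, eval_X,
        eval_C]
      exact mul_ne_zero (sub_ne_zero.2 hne) hz1
    · rw [(hirr a').isRelPrime_iff_not_dvd, dvd_iff_isRoot, IsRoot.def]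
      exact hz2
  · rw [(monic_X_sub_C a).natDegree_mul hfm, natDegree_X_sub_C, hfd]
    ring
  · rw [mul_coeff_zero, coeff_sub, coeff_X_zero, coeff_C_zero, zero_sub]
    exact mul_ne_zero (neg_ne_zero.2 ha0) hf0
  · obtain ⟨y, hy⟩ := hfs
    refine ⟨s * ρ * y, ?_⟩
    rw [mul_coeff_zero, coeff_sub, coeff_X_zero, coeff_C_zero, zero_sub]
    have h1 : s * ρ * y * (s * ρ * y) = (s * ρ) ^ 2 * (y * y) := by ring
    rw [h1, ← hy, ha, hb, pow_succ (-1 : ZMod l) g, pow_succ ρ g]
    ring
  · have hcomp : ((X - C a) * f).comp (C (ρ ^ 2) * X) =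
        (C (ρ ^ 2) * X - C a) * f.comp (C (ρ ^ 2) * X) := by
      rw [mul_comp, sub_comp, X_comp, C_comp]
    rw [hcomp, reverse_mul_of_domain, reverse_lin _ _ (pow_ne_zero 2 hr),
      hwm _ _ (monic_X_sub_C t) hvm, hw1, mul_coeff_zero, coeff_sub, coeff_X_zero, coeff_C_zero,
      zero_sub]
    have h1 : C (-a * f.coeff 0) * ((X - C a) * (X - C a') * weilm (ρ ^ 2) v) =
        C (-a) * ((X - C a) * (X - C a')) * (C (f.coeff 0) * weilm (ρ ^ 2) v) := by
      rw [C_mul]
      ring
    rw [h1, hfe, ← haa, C_neg, C_mul]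
    ring

/-- multiplication by a linear factor -/
theorem mul_facSet {a g : ℕ} (ha : 2 ≤ a) {v : (ZMod l)[X]} (hv : v ∈ facSet a g l) (t : ZMod l)
    (hvt : v.eval t ≠ 0) : (X - C t) * v ∈ facSet a (g + 1) l := by
  classical
  obtain ⟨T, u, hum, hud, hui, hT, rfl⟩ := hv
  have ht : t ∉ T := by
    intro h
    apply hvt
    rw [eval_mul, eval_prod, Finset.prod_eq_zero h (by simp), zero_mul]
  refine ⟨insert t T, u, hum, hud, hui, ?_, ?_⟩
  · rw [Finset.card_insert_of_notMem ht]
    omega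
  · rw [Finset.prod_insert ht, mul_assoc]

theorem cnt_fac (h : St_WM) (h2 : St_OCNTI) (a : ℕ) (ha : 2 ≤ a) (b : ℕ) :
    ∃ c : ℝ, 0 < c ∧ ∃ l₁ : ℕ, ∀ l : ℕ, l.Prime → l₁ ≤ l → ∀ r : ℕ, ¬ l ∣ r → ∀ κ : (ZMod l)ˣ,
      c * (l : ℝ) ^ (a + b) ≤ ((facSet a (a + b) l ∩ halved (a + b) l r κ).ncard : ℝ) := by
  induction b with
  | zero =>
    obtain ⟨c, hc, l₁, h3⟩ := h2 a ha
    refine ⟨c, hc, l₁, fun l hl hll r hr κ => ?_⟩
    have : Fact l.Prime := ⟨hl⟩
    refine (h3 l hl hll r hr κ).trans (Nat.cast_le.2 (Set.ncard_le_ncard ?_ ?_))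
    · rintro f ⟨⟨hm, hd, hi⟩, hf⟩
      exact ⟨⟨∅, f, hm, hd, hi, by simp, by simp⟩, hf⟩
    · exact finite_deg (a + 0) _ fun u hu => hu.2.2.1
  | succ b ih =>
    obtain ⟨c, hc, l₁, hl₁⟩ := ih
    refine ⟨c / (8 * (a + b + 1)), by positivity, max l₁ (10 + 8 * (a + b)), ?_⟩
    intro l hl hll r hlr κ
    have : Fact l.Prime := ⟨hl⟩
    classical
    have hl1 : l₁ ≤ l := (le_max_left _ _).trans hll
    have hl10 : 10 + 8 * (a + b) ≤ l := (le_max_right _ _).trans hll
    have hr : (r : ZMod l) ≠ 0 := by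
      rw [Ne, ZMod.natCast_eq_zero_iff]
      exact hlr
    have hfin : ∀ g, (facSet a g l ∩ halved g l r κ).Finite := fun g =>
      finite_deg g _ fun u hu => hu.2.2.1
    set V : Finset (ZMod l)[X] := (hfin (a + b)).toFinset with hV
    set V' : Finset (ZMod l)[X] := (hfin (a + b + 1)).toFinset with hV'
    have hVc := hl₁ l hl hl1 r hlr κ
    rw [Set.ncard_eq_toFinset_card _ (hfin (a + b)), ← hV] at hVc
    have e0 : a + (b + 1) = a + b + 1 := by ring
    rw [e0, Set.ncard_eq_toFinset_card _ (hfin (a + b + 1)), ← hV']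
    set G : Finset (ZMod l) := Finset.univ.filter fun s => s ≠ 0 ∧ (s ^ 2) ^ 2 ≠ 1
      with hG
    let tt : ZMod l → ZMod l := fun s => (r : ZMod l) * (s ^ 2 + (s ^ 2)⁻¹)
    -- the number of the parameters
    have hGc : l - 5 ≤ G.card := by
      have h3 : (Finset.univ.filter fun s : ZMod l => ¬ (s ≠ 0 ∧ (s ^ 2) ^ 2 ≠ 1)) ⊆
          insert 0 (X ^ 4 - C 1 : (ZMod l)[X]).roots.toFinset := by
        intro s hs
        rw [Finset.mem_filter] at hs
        rw [Finset.mem_insert]
        by_cases hs0 : s = 0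
        · exact Or.inl hs0
        · right
          have h4 : (s ^ 2) ^ 2 = 1 := by
            by_contra h5
            exact hs.2 ⟨hs0, h5⟩
          rw [Multiset.mem_toFinset, mem_roots (X_pow_sub_C_ne_zero (by norm_num) 1), IsRoot.def]
          simp only [eval_sub, eval_C, eval_pow, eval_X]
          rw [← h4]
          ring
      have h4 : (X ^ 4 - C 1 : (ZMod l)[X]).roots.toFinset.card ≤ 4 := by
        refine (Multiset.toFinset_card_le _).trans ((card_roots' _).trans ?_)
        rw [natDegree_X_pow_sub_C]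
      have h5 := (Finset.card_le_card h3).trans (Finset.card_insert_le _ _)
      have h6 := Finset.card_filter_add_card_filter_not (s := (Finset.univ : Finset (ZMod l)))
        (fun s => s ≠ 0 ∧ (s ^ 2) ^ 2 ≠ 1)
      rw [Finset.card_univ, ZMod.card, ← hG] at h6
      omega
    have hfib : ∀ x ∈ G.image tt, (G.filter fun s => tt s = x).card ≤ 4 := by
      intro x _
      have h3 : (G.filter fun s => tt s = x) ⊆
          (C (r : ZMod l) * X ^ 4 - C x * X ^ 2 + C (r : ZMod l) : (ZMod l)[X]).roots.toFinset := by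
        intro s hs
        rw [Finset.mem_filter, hG, Finset.mem_filter] at hs
        obtain ⟨⟨-, hs0, -⟩, hsx⟩ := hs
        rw [Multiset.mem_toFinset, mem_roots']
        refine ⟨?_, ?_⟩
        · intro h5
          have h6 := congrArg (fun p => coeff p 4) h5
          simp only [coeff_add, coeff_sub, coeff_C_mul_X_pow, coeff_zero] at h6
          rw [if_pos trivial, if_neg (by norm_num), coeff_C, if_neg (by norm_num), sub_zero,
            add_zero] at h6
          exact hr h6
        · rw [IsRoot.def]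
          simp only [eval_add, eval_sub, eval_mul, eval_C, eval_pow, eval_X]
          rw [← hsx]
          simp only [tt]
          field_simp
          ring
      refine (Finset.card_le_card h3).trans ?_
      refine (Multiset.toFinset_card_le _).trans ((card_roots' _).trans ?_)
      refine (natDegree_add_le _ _).trans (max_le ?_ ?_)
      · refine (natDegree_sub_le _ _).trans (max_le (natDegree_C_mul_X_pow_le _ _) ?_)
        exact (natDegree_C_mul_X_pow_le _ _).trans (by norm_num)
      · rw [natDegree_C]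
        norm_num
    have hTc : G.card ≤ 4 * (G.image tt).card := Finset.card_le_mul_card_image G 4 hfib
    set T : Finset (ZMod l) := G.image tt with hT
    -- the pairs
    set P : Finset (ZMod l × (ZMod l)[X]) :=
      (T ×ˢ V).filter fun q => q.2.eval q.1 ≠ 0 with hP
    have hvd : ∀ v ∈ V, v ≠ 0 ∧ v.natDegree = a + b := by
      intro v hv
      rw [hV, Set.Finite.mem_toFinset] at hv
      exact ⟨hv.2.1.ne_zero, hv.2.2.1⟩
    have hPc : (T.card - (a + b)) * V.card ≤ P.card := by
      have e1 : P.card = ∑ v ∈ V, (P.filter fun q => q.2 = v).card := by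
        apply Finset.card_eq_sum_card_fiberwise
        intro q hq
        rw [Finset.mem_coe, hP, Finset.mem_filter, Finset.mem_product] at hq
        exact hq.1.2
      rw [e1, mul_comm, ← smul_eq_mul, ← Finset.sum_const]
      refine Finset.sum_le_sum fun v hv => ?_
      have e2 : T.card - v.roots.toFinset.card ≤ (T \ v.roots.toFinset).card :=
        Finset.le_card_sdiff _ _
      have e3 : v.roots.toFinset.card ≤ a + b :=
        (Multiset.toFinset_card_le _).trans ((card_roots' _).trans (hvd v hv).2.le)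
      refine le_trans (by omega) (le_trans e2 ?_)
      refine Finset.card_le_card_of_injOn (fun t => (t, v)) ?_ ?_
      · intro t ht
        rw [Finset.mem_coe, Finset.mem_sdiff, Multiset.mem_toFinset,
          mem_roots (hvd v hv).1] at ht
        rw [Finset.mem_coe, Finset.mem_filter, hP, Finset.mem_filter, Finset.mem_product]
        exact ⟨⟨⟨ht.1, hv⟩, ht.2⟩, rfl⟩
      · intro t _ t' _ htt
        exact (Prod.ext_iff.1 htt).1
    have hPV : P.card ≤ (a + b + 1) * V'.card := by
      have e1 : P.card ≤ (a + b + 1) * (P.image fun q => (X - C q.1) * q.2).card := by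
        refine Finset.card_le_mul_card_image P _ ?_
        intro u hu
        have e2 : (P.filter fun q => (X - C q.1) * q.2 = u).card ≤ u.roots.toFinset.card := by
          have hu0 : u ≠ 0 ∧ u.natDegree = a + b + 1 := by
            obtain ⟨q, hq, rfl⟩ := Finset.mem_image.1 hu
            rw [hP, Finset.mem_filter, Finset.mem_product] at hq
            have e3 := hvd q.2 hq.1.2
            refine ⟨mul_ne_zero (X_sub_C_ne_zero _) e3.1, ?_⟩
            rw [natDegree_mul (X_sub_C_ne_zero _) e3.1, natDegree_X_sub_C, e3.2]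
            ring
          refine Finset.card_le_card_of_injOn (fun q => q.1) ?_ ?_
          · intro q hq
            rw [Finset.mem_coe, Finset.mem_filter] at hq
            rw [Finset.mem_coe, Multiset.mem_toFinset, mem_roots hu0.1, ← hq.2, IsRoot.def,
              eval_mul, eval_sub, eval_X, eval_C, sub_self, zero_mul]
          · intro q hq q' hq' hqq
            rw [Finset.mem_coe, Finset.mem_filter] at hq hq'
            have e4 : q.1 = q'.1 := hqq
            have e5 : (X - C q.1) * q.2 = (X - C q.1) * q'.2 := by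
              rw [hq.2, e4, hq'.2]
            exact Prod.ext e4 (mul_left_cancel₀ (X_sub_C_ne_zero _) e5)
        refine e2.trans ?_
        refine (Multiset.toFinset_card_le _).trans ((card_roots' _).trans ?_)
        obtain ⟨q, hq, rfl⟩ := Finset.mem_image.1 hu
        rw [hP, Finset.mem_filter, Finset.mem_product] at hq
        have e3 := hvd q.2 hq.1.2
        rw [natDegree_mul (X_sub_C_ne_zero _) e3.1, natDegree_X_sub_C, e3.2]
        omega
      refine e1.trans (Nat.mul_le_mul_left _ (Finset.card_le_card ?_))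
      intro u hu
      obtain ⟨q, hq, rfl⟩ := Finset.mem_image.1 hu
      rw [hP, Finset.mem_filter, Finset.mem_product, hT, Finset.mem_image] at hq
      obtain ⟨⟨⟨s, hs, hst⟩, hv⟩, hne⟩ := hq
      rw [hG, Finset.mem_filter] at hs
      rw [hV, Set.Finite.mem_toFinset] at hv
      rw [hV', Set.Finite.mem_toFinset]
      refine ⟨mul_facSet ha hv.1 q.1 hne, ?_⟩
      have e3 : (X - C q.1) * q.2 = (X - C ((r : ZMod l) * (s ^ 2 + (s ^ 2)⁻¹))) * q.2 := by
        rw [← hst]
      rw [e3]
      refine mul_halved h (a + b) r κ hr s hs.2.1 q.2 hv.2 hs.2.2 ?_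
      have e4 : (r : ZMod l) * (s ^ 2 + (s ^ 2)⁻¹) = q.1 := hst
      rw [e4]
      exact hne
    have h8 : (l : ℝ) / 8 ≤ ((T.card - (a + b) : ℕ) : ℝ) := by
      have h9 : l ≤ 8 * (T.card - (a + b)) := by omega
      have h10 : (l : ℝ) ≤ 8 * ((T.card - (a + b) : ℕ) : ℝ) := by exact_mod_cast h9
      linarith
    have h9 : (((T.card - (a + b) : ℕ) : ℝ)) * (V.card : ℝ) ≤ ((a + b + 1 : ℕ) : ℝ) * V'.card := by
      exact_mod_cast hPc.trans hPV
    have hl0 : (0 : ℝ) < l := by exact_mod_cast hl.pos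
    have h10 : c * (l : ℝ) ^ (a + b) * ((l : ℝ) / 8) ≤ ((a + b + 1 : ℕ) : ℝ) * V'.card := by
      refine le_trans ?_ h9
      rw [mul_comm]
      exact mul_le_mul h8 hVc (by positivity) (by positivity)
    rw [div_mul_eq_mul_div, div_le_iff₀ (by positivity)]
    push_cast at h10
    rw [pow_succ]
    linarith

end Pool.Agent.W5h58.GN
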