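import Pool.Agent.W5h58.GN.Avg

/-!
# Integrality and slopes: exact sums
-/

set_option autoImplicit false

open Polynomial NumberField

namespace Pool.Agent.W5h58.GN

open Pool.Agent.W458.MF Pool.Agent.W521.Frob Pool.Agent.W521.Criterion Pool.Agent.W338.MF
  Pool.Agent.W928.MF Pool.Agent.W5h58.GT

/-- simultaneous permutations -/
lemma exists_all_perm {I : Type} [Fintype I] {h : I → ℤ[X]} {L : Type} [Field L] [NumberField L]
    (hP : HasPerms h L) (π : ∀ i, Equiv.Perm {θ : L // aeval θ (h i) = 0}) :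
    ∃ σ : L ≃ₐ[ℚ] L, ∀ i, ∀ θ : {θ : L // aeval θ (h i) = 0}, σ θ = π i θ := by
  classical
  have key : ∀ J : Finset I, ∃ σ : L ≃ₐ[ℚ] L,
      (∀ i ∈ J, ∀ θ : {θ : L // aeval θ (h i) = 0}, σ θ = π i θ) ∧
      ∀ i ∉ J, ∀ θ : {θ : L // aeval θ (h i) = 0}, σ θ = θ := by
    intro J
    induction J using Finset.induction_on with
    | empty => exact ⟨1, fun i hi => absurd hi (Finset.notMem_empty i), fun i _ θ => rfl⟩
    | insert i J hi ih =>
      obtain ⟨σ, h1, h2⟩ := ih
      obtain ⟨τ, h3, h4⟩ := hP i (π i)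
      refine ⟨τ * σ, fun j hj θ => ?_, fun j hj θ => ?_⟩
      · change τ (σ θ) = _
        rcases Finset.mem_insert.1 hj with rfl | hj
        · rw [h2 j hi θ, h3 θ]
        · have hji : j ≠ i := fun e => hi (e ▸ hj)
          rw [h1 j hj θ, h4 j hji _ (π j θ).2]
      · change τ (σ θ) = _
        rw [Finset.mem_insert, not_or] at hj
        rw [h2 j hj.2 θ, h4 j hj.1 _ θ.2]
  obtain ⟨σ, h1, -⟩ := key Finset.univ
  exact ⟨σ, fun i θ => h1 i (Finset.mem_univ i) θ⟩

/-- the sum over a list by indices -/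
lemma sum_by_index {I α : Type} [Fintype I] [DecidableEq I] (g : I × α → ℝ) (l : List (I × α)) :
    (l.map g).sum = ∑ i, ((l.filter fun x => x.1 = i).map g).sum := by
  induction l with
  | nil => simp
  | cons a l ih =>
    rw [List.map_cons, List.sum_cons, ih]
    have h1 : ∀ i, ((List.filter (fun x => decide (x.1 = i)) (a :: l)).map g).sum =
        (if a.1 = i then g a else 0) +
          ((List.filter (fun x => decide (x.1 = i)) l).map g).sum := by
      intro i
      rw [List.filter_cons]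
      by_cases hi : a.1 = i
      · rw [if_pos (by simpa using hi), if_pos hi, List.map_cons, List.sum_cons]
      · rw [if_neg (by simpa using hi), if_neg hi, zero_add]
    rw [Finset.sum_congr rfl fun i _ => h1 i, Finset.sum_add_distrib, Finset.sum_ite_eq,
      if_pos (Finset.mem_univ _)]

/-- **Integrality and slopes.** -/
theorem count_le {I : Type} [Fintype I] [DecidableEq I] {q : I → ℕ} {h : I → ℤ[X]} {R : ℤ[X]}
    {p m : ℕ} (hp : p.Prime)
    (hm0 : 0 < m) (d : I → ℕ) (hqd : ∀ i, q i = p ^ (d i * m)) (hm : ∀ i, (h i).Monic)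
    (hirr : ∀ i, Irreducible ((h i).map (Int.castRingHom ℚ)))
    {L : Type} [Field L] [NumberField L] [IsGalois ℚ L]
    (hs : ∀ i, ((h i).map (algebraMap ℤ L)).Splits) (o : I → Prop)
    (key : ∀ i, ¬ o i → ∀ α : L, aeval α (weil (q i) (h i)) = 0 → Flp q h R i α)
    (key2 : ∀ i, o i → ∀ θ θ' : L, aeval θ (h i) = 0 → aeval θ' (h i) = 0 → θ ≠ θ' →
      Edg q h R i θ θ') (hP : HasPerms h L)
    (n : I → ℕ) (w x : I → ℝ) (hx : ∀ i, 0 ≤ x i) (hox : ∀ i, o i → x i = 1)
    (hw : ∀ i, NewtonLe p (d i) m (h i) (n i) (x i) (w i))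
    (l : List (I × L)) (hl : ∀ x ∈ l, aeval x.2 (weil (q x.1) (h x.1)) = 0)
    (hln : ∀ i, (l.filter fun x => x.1 = i).length ≤ n i)
    (hno : ∀ x ∈ l, (x.1, (q x.1 : L) / x.2) ∉ l) (t : ℕ) (ht : 0 < t) (c : ℕ)
    (hint : IsIntegral ℤ ((l.map fun x => x.2 ^ t).prod / (p : L) ^ (m * t * c))) :
    (c : ℝ) ≤ ∑ i, w i := by
  classical
  obtain ⟨N, hN⟩ := exists_val p hp L
  have hq : ∀ i, q i ≠ 0 := fun i => by rw [hqd i]; exact pow_ne_zero _ hp.pos.ne'
  have hlog : 0 < Real.log p := Real.log_pos (by exact_mod_cast hp.one_lt)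
  have hmR : (0 : ℝ) < m := by exact_mod_cast hm0
  -- the roots
  have hHm : ∀ i, ((h i).map (algebraMap ℤ L)).Monic := fun i => (hm i).map _
  set Rt : I → Finset L := fun i => ((h i).map (algebraMap ℤ L)).roots.toFinset with hRt
  have hmemH : ∀ i (x : L), x ∈ Rt i ↔ aeval x (h i) = 0 := by
    intro i x
    rw [hRt, Multiset.mem_toFinset, mem_roots (hHm i).ne_zero, IsRoot.def, eval_map]
    rfl
  have hg : ∀ i, 0 < (h i).natDegree := by
    intro i
    have h7 := (hirr i).natDegree_pos
    rwa [(hm i).natDegree_map] at h7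
  have hnd : ∀ i, ((h i).map (algebraMap ℤ L)).roots.Nodup := by
    intro i
    have e1 : ((h i).map (Int.castRingHom ℚ)).map (algebraMap ℚ L) =
        (h i).map (algebraMap ℤ L) := by
      rw [Polynomial.map_map]
      congr 1
      exact RingHom.ext_int _ _
    have hHsep : ((h i).map (algebraMap ℤ L)).Separable := by
      rw [← e1, separable_map]
      exact (hirr i).separable
    exact (nodup_roots_iff_of_splits (hHm i).ne_zero (hs i)).2 hHsep
  have hval : ∀ i, (Rt i).val = ((h i).map (algebraMap ℤ L)).roots := fun i => by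
    rw [hRt]
    exact Multiset.dedup_eq_self.2 (hnd i)
  have hprod : ∀ i, (h i).map (algebraMap ℤ L) = ∏ θ ∈ Rt i, (X - C θ) := by
    intro i
    rw [Finset.prod, hval i]
    exact (hs i).eq_prod_roots_of_monic (hHm i)
  have hcard : ∀ i, (Rt i).card = (h i).natDegree := by
    intro i
    rw [← Finset.card_val, hval i, splits_iff_card_roots.1 (hs i), (hm i).natDegree_map]
  have hintR : ∀ i, ∀ θ ∈ Rt i, IsIntegral ℤ θ := fun i θ hθ =>
    ⟨h i, hm i, (hmemH i θ).1 hθ⟩
  have hϑex : ∀ i, ∃ ϑ ∈ Rt i, ∀ θ ∈ Rt i,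
      max (N ϑ) (Real.sqrt (N ((p ^ (d i * m) : ℕ) : L))) ≤
        max (N θ) (Real.sqrt (N ((p ^ (d i * m) : ℕ) : L))) := by
    intro i
    have hne : (Rt i).Nonempty := Finset.card_pos.1 (by rw [hcard i]; exact hg i)
    exact Finset.exists_min_image _ _ hne
  choose ϑ hϑ hϑmin using hϑex
  have hkey := flpAbs_of (R := R) (ϑ := ϑ) hq hm (fun i _ => (hmemH i _).1 (hϑ i)) key key2
  set f : I → L → ℝ := fun i => fval N q o ϑ i with hf
  -- the sets
  have hA : ∀ i, ∃ A ⊆ Rt i, A.Nonempty ∧ (n i ≤ A.card ∨ A = Rt i) ∧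
      ∀ n' : ℕ, n' ≤ n i → -(w i * m * Real.log p) * A.card ≤ n' * ∑ θ ∈ A, f i θ := by
    intro i
    refine member_ge hN hp hm0 (Rt i) (hprod i) (hcard i) (hg i) (hw i) (hintR i) (hϑ i)
      (hϑmin i) (o := o i) (hx i) (hox i) (f i) ?_ ?_
    · intro θ hθ
      rw [hf]
      dsimp only
      rw [fval, if_neg hθ, hqd i]
    · intro ho
      rw [hf]
      dsimp only
      rw [fval, if_pos ⟨ho, rfl⟩, hqd i]
  choose A hAR hAne hAn hAge using hA
  -- the permutations
  have hfin : ∀ i, Finite {θ : L // aeval θ (h i) = 0} := fun i =>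
    Finite.of_injective (fun θ => (⟨θ.1, (hmemH i _).2 θ.2⟩ : Rt i)) fun x y hxy =>
      Subtype.ext (congrArg (fun z : Rt i => z.1) hxy)
  have hperm : ∀ i, ∃ π : Equiv.Perm {θ : L // aeval θ (h i) = 0},
      ∀ τ : L → L, (∀ θ : {θ : L // aeval θ (h i) = 0}, τ θ = π θ) →
        -(w i * m * Real.log p) ≤
          ((l.filter fun x => x.1 = i).map fun x => f x.1 (τ (x.2 + q x.1 / x.2))).sum := by
    intro i
    have := hfin i
    have := Fintype.ofFinite {θ : L // aeval θ (h i) = 0}
    have hroots : ∀ y ∈ (l.filter fun x => x.1 = i).map fun x => x.2 + (q x.1 : L) / x.2,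
        aeval y (h i) = 0 := by
      intro y hy
      obtain ⟨x, hx, rfl⟩ := List.mem_map.1 hy
      rw [List.mem_filter] at hx
      have hxi : x.1 = i := by simpa using hx.2
      have h1 := ((root_iff (hq x.1) (hm x.1) x.2).1 (hl x hx.1)).2
      rw [← hxi]
      exact h1
    obtain ⟨k, hk⟩ : ∃ k : List {θ : L // aeval θ (h i) = 0}, k.map Subtype.val =
        (l.filter fun x => x.1 = i).map fun x => x.2 + (q x.1 : L) / x.2 := by
      generalize (l.filter fun x => x.1 = i).map (fun x => x.2 + (q x.1 : L) / x.2) = l₁ at hroots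
      induction l₁ with
      | nil => exact ⟨[], rfl⟩
      | cons a l₁ ih =>
        obtain ⟨k, hk⟩ := ih fun y hy => hroots y (List.mem_cons_of_mem _ hy)
        exact ⟨⟨a, hroots a List.mem_cons_self⟩ :: k, by rw [List.map_cons, hk]⟩
    have hkl : k.length = (l.filter fun x => x.1 = i).length := by
      have := congrArg List.length hk
      rwa [List.length_map, List.length_map] at this
    set B : Finset {θ : L // aeval θ (h i) = 0} :=
      (A i).subtype fun θ => aeval θ (h i) = 0 with hB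
    have hAall : ∀ θ ∈ A i, aeval θ (h i) = 0 := fun θ hθ => (hmemH i θ).1 (hAR i hθ)
    have hBc : B.card = (A i).card := by
      rw [hB, Finset.card_subtype, Finset.filter_true_of_mem hAall]
    have hBne : B.Nonempty := Finset.card_pos.1 (by rw [hBc]; exact (hAne i).card_pos)
    have hBsum : ∑ θ ∈ B, f i θ = ∑ θ ∈ A i, f i θ := Finset.sum_subtype_of_mem _ hAall
    have hD : k.toFinset.card ≤ B.card := by
      rcases hAn i with h1 | h1
      · rw [hBc]
        have h2 : k.toFinset.card ≤ k.length := List.toFinset_card_le k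
        have h3 := hln i
        omega
      · have h2 : B = Finset.univ := by
          ext θ
          rw [hB, Finset.mem_subtype, h1, hmemH]
          exact ⟨fun _ => Finset.mem_univ _, fun _ => θ.2⟩
        rw [h2]
        exact Finset.card_le_univ _
    obtain ⟨π, hπ⟩ := exists_perm_ge (fun θ : {θ : L // aeval θ (h i) = 0} => f i θ) B hBne k hD
    refine ⟨π, fun τ hτ => ?_⟩
    have e1 : (k.map fun θ => f i (π θ)).sum =
        ((l.filter fun x => x.1 = i).map fun x => f x.1 (τ (x.2 + q x.1 / x.2))).sum := by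
      have e2 : (k.map fun θ => f i (π θ)) = (k.map Subtype.val).map fun y => f i (τ y) := by
        rw [List.map_map]
        refine List.map_congr_left fun θ _ => ?_
        rw [Function.comp_apply, hτ θ]
      rw [e2, hk, List.map_map]
      congr 1
      refine List.map_congr_left fun x hx => ?_
      have hxi : x.1 = i := by
        rw [List.mem_filter] at hx
        simpa using hx.2
      rw [Function.comp_apply, hxi]
    rw [← e1]
    have h1 := hAge i k.length (by rw [hkl]; exact hln i)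
    rw [hBsum, hBc] at hπ
    have h2 : (0 : ℝ) < (A i).card := by exact_mod_cast (hAne i).card_pos
    have h3 := h1.trans hπ
    rw [mul_comm] at h3
    exact le_of_mul_le_mul_left h3 h2
  choose π hπ using hperm
  obtain ⟨σ, hσ⟩ := exists_all_perm hP π
  have h1 := one_aut hp d hqd hm hN hkey l hl hno t ht c hint σ
  rw [sum_by_index] at h1
  have h2 : ∑ i, -(w i * m * Real.log p) ≤
      ∑ i, ((l.filter fun x => x.1 = i).map fun x => f x.1 (σ (x.2 + q x.1 / x.2))).sum :=
    Finset.sum_le_sum fun i _ => hπ i σ (hσ i)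
  have h3 := h2.trans h1
  rw [Finset.sum_neg_distrib, neg_le_neg_iff, ← Finset.sum_mul, ← Finset.sum_mul] at h3
  have h4 : (m : ℝ) * Real.log p * c ≤ (m : ℝ) * Real.log p * ∑ i, w i := by linarith
  exact le_of_mul_le_mul_left h4 (by positivity)

end Pool.Agent.W5h58.GN
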