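import Pool.Agent.W5h58.GT.CDefs

/-!
# The coniveau filtrations of products with given numbers of factors: definitions
-/

open CategoryTheory AlgebraicGeometry Polynomial

universe u v

namespace Pool.Agent.W5h58.GN

open Pool.Agent.H914 Pool.Agent.W534 VarClass Obj WeilCohomology Pool.Agent.W458.MF

/-- `Z` is a product of `n i` copies of the varieties `X i` and of copies of `Y`, in any order. -/
inductive IsProductWith {k : Type u} [Field k] {𝒱 : VarClass k} {I : Type} [DecidableEq I]
    (Y : 𝒱.Obj) (X : I → 𝒱.Obj) : 𝒱.Obj → (I → ℕ) → Prop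
  | base : IsProductWith Y X Y 0
  | member (i : I) : IsProductWith Y X (X i) (Pi.single i 1)
  | prod {Z Z' : 𝒱.Obj} {a b : I → ℕ} : IsProductWith Y X Z a → IsProductWith Y X Z' b →
      IsProductWith Y X (Z.prod Z') (a + b)

open Classical in
/-- The roots of the polynomial `x ^ g * h (x + q / x)`, with `q = p ^ (dim m)` and `h = pol` of
degree `g`, form `g` pairs `α, q / α`. A pair has two slopes `μ, dim - μ` (`p`-adic valuations
divided by the valuation of `p ^ m`), where `μ ≤ dim - μ`. For `n < g` the condition says that the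
sum of the `n` smallest numbers `μ` is at most `w`. (It is the maximum over `s ≤ dim / 2` of the
minimum over `r` of `v (c r) / m + (n + r - g) s`, where `c r` is the coefficient of `x ^ r` in `h`
and `v` the `p`-adic valuation, by the duality of the Newton polygon and the valuations of the
polynomial.) For `n ≥ g` it says that `n` times the average of all the numbers `μ` is at most `w`; if
`e = 0` and the dimension is even, `dim - 2 s` is added to the sum. -/
def SlopeSumAtMost {k : Type u} [Field k] {𝒱 : VarClass k} {ops : CycleOps 𝒱}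
    {W : WeilCohomology.{u, v} ops} {Y : 𝒱.Obj} (P : Piece W Y) (p m e n : ℕ) (w : ℝ) : Prop :=
  ∀ s : ℝ, 0 ≤ s → 2 * s ≤ P.obj.dim → ∃ r : ℕ, P.pol.coeff r ≠ 0 ∧
    (n < P.pol.natDegree → (padicValInt p (P.pol.coeff r) : ℝ) / m +
      (n + r - P.pol.natDegree) * s ≤ w) ∧
    (P.pol.natDegree ≤ n → n * ((padicValInt p (P.pol.coeff r) : ℝ) / m + r * s +
      if e = 0 ∧ Even P.obj.dim then P.obj.dim - 2 * s else 0) ≤ P.pol.natDegree * w)

/-- The sum of the `n` smallest slopes of the member is at most `w`; and if `e ≠ 0`, then the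
eigenvectors of the Frobenius endomorphism `fr` in `sub` for the eigenvalues `± p ^ (m dim / 2)` are
linear combinations of algebraic classes (a case of the Tate conjecture). -/
structure IsAdmissibleFor {k : Type u} [Field k] {𝒱 : VarClass k} {ops : CycleOps 𝒱}
    {W : WeilCohomology.{u, v} ops} {Y : 𝒱.Obj} (P : Piece W Y) (p m e n : ℕ) (w : ℝ) :
    Prop where
  slope : SlopeSumAtMost P p m e n w
  tate : e ≠ 0 → Pol.RootsIn (W.map P.fr).toLinearMap P.sub ((p : W.K) ^ (P.obj.dim * m))
    (Pool.Agent.H281R3.HT.algSpan W P.obj)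

end Pool.Agent.W5h58.GN
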