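import Pool.Agent.W5h58.GN.CNT
import Pool.Agent.W458.MF.Gen8

/-!
# Proportions of the products of different linear factors and of an irreducible polynomial
-/

set_option autoImplicit false

open CategoryTheory AlgebraicGeometry Polynomial

universe u v

namespace Pool.Agent.W5h58.GN

open Pool.Agent.H914 Pool.Agent.W534 Pool.Agent.W521.Frob VarClass Obj WeilCohomology
  Pool.Agent.W458.MF Pool.Agent.W32.MF

theorem facSet_good {a g l : ℕ} (ha : 2 ≤ a) (hl : l.Prime) {f : (ZMod l)[X]}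
    (hf : f ∈ facSet a g l) : f.Monic ∧ f.natDegree = g ∧ Squarefree f := by
  have : Fact l.Prime := ⟨hl⟩
  obtain ⟨T, v, hvm, hvd, hvi, hT, rfl⟩ := hf
  have h1 : (∏ t ∈ T, (X - C t) : (ZMod l)[X]).Monic :=
    monic_prod_of_monic _ _ fun t _ => monic_X_sub_C t
  have h2 := W806.MF.prod_good (l := l) T rfl
  refine ⟨h1.mul hvm, ?_, ?_⟩
  · rw [h1.natDegree_mul hvm, h2.2.1, hvd, hT]
  · rw [squarefree_mul_iff]
    refine ⟨?_, h2.2.2, hvi.squarefree⟩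
    apply IsCoprime.isRelPrime
    apply IsCoprime.prod_left
    intro t _
    rw [(irreducible_X_sub_C t).coprime_iff_not_dvd, dvd_iff_isRoot]
    intro h
    have h4 := degree_eq_one_of_irreducible_of_root hvi h
    have h5 : v.natDegree = 1 := natDegree_eq_of_degree_eq_some h4
    omega

theorem halved_eval (h : St_WM) {g l r : ℕ} (hl : l.Prime) (κ : (ZMod l)ˣ) {f : (ZMod l)[X]}
    (hf : f ∈ halved g l r κ) :
    f.eval (2 * (r : ZMod l)) ≠ 0 ∧ f.eval (2 * -(r : ZMod l)) ≠ 0 := by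
  have : Fact l.Prime := ⟨hl⟩
  obtain ⟨hm, hd, hsq, -⟩ := hf
  obtain ⟨hwm, hwl, -, -, -⟩ := h l hl ((r : ZMod l) ^ 2)
  have key : ∀ a : ZMod l, a ^ 2 = (r : ZMod l) ^ 2 → f.eval (2 * a) ≠ 0 := by
    intro a ha hev
    obtain ⟨u, hu⟩ := dvd_iff_isRoot.2 hev
    have hum : u.Monic := Monic.of_mul_monic_left (monic_X_sub_C (2 * a)) (hu ▸ hm)
    rw [hu, hwm _ _ (monic_X_sub_C _) hum, hwl, ← ha] at hsq
    have e : (X ^ 2 - C (2 * a) * X + C (a ^ 2) : (ZMod l)[X]) * weilm (a ^ 2) u =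
        (X - C a) * (X - C a) * weilm (a ^ 2) u := by
      rw [C_mul, C_pow]
      have : (C 2 : (ZMod l)[X]) = 2 := rfl
      rw [this]
      ring
    rw [e] at hsq
    exact not_isUnit_X_sub_C a (hsq (X - C a) (Dvd.intro _ rfl))
  exact ⟨key _ rfl, key _ (by ring)⟩

/-- The constants for the proportions. -/
def St_FDENS : Prop := ∀ a b : ℕ, 2 ≤ a → ∃ c : ℝ, 0 < c ∧ ∃ l₁ : ℕ, ∀ l : ℕ, l.Prime → l₁ ≤ l →
  (∀ q : ℕ, ¬ l ∣ q → c ≤ proportion (a + b) l q (facSet a (a + b) l)) ∧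
  (∀ r : ℕ, ¬ l ∣ r → ∀ κ : (ZMod l)ˣ, c ≤ oproportion (a + b) l r κ (facSet a (a + b) l)) ∧
  (∀ z : ℤ, ¬ (l : ℤ) ∣ z → ∀ e : ℕ, (e = 1 ∨ e = 2) → ∀ δ κ : (ZMod l)ˣ,
    c ≤ eproportion (a + b) l z e δ κ (facSet a (a + b) l))

theorem fdens : St_FDENS := by
  intro a b ha
  obtain ⟨c, hc, l₁, H⟩ := cnt_fac W101.MF.wm (W959.MF.ocnti W101.MF.wm) a ha b
  refine ⟨c / (4 * 2 ^ (a + b)), by positivity, max l₁ 5, fun l hl hll => ?_⟩
  have : NeZero l := ⟨hl.ne_zero⟩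
  have hF : Fact l.Prime := ⟨hl⟩
  have hll5 : 5 ≤ l := (le_max_right _ _).trans hll
  have hla : l₁ ≤ l := (le_max_left _ _).trans hll
  have hl2 : l ≠ 2 := by omega
  have hg0 : 0 < a + b := by omega
  have hcc : c / (4 * 2 ^ (a + b)) ≤ c / 2 ^ (a + b) := by
    apply div_le_div_of_nonneg_left hc.le (by positivity)
    have : (0 : ℝ) < 2 ^ (a + b) := by positivity
    linarith
  have hfin : (facSet a (a + b) l).Finite := finite_deg (a + b) _ fun u hu =>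
    (facSet_good ha hl hu).2.1
  refine ⟨fun q hq => hcc.trans ?_, fun r hr κ => hcc.trans ?_, fun z hz e he δ κ => ?_⟩
  · refine W806.MF.prop_ge W337.MF.orb W366.MF.winj hg0 hl hq hc
      (fun f hf => facSet_good ha hl hf) ?_
    refine (H l hl hla 1 (by rw [Nat.dvd_one]; omega) 1).trans (Nat.cast_le.2 ?_)
    exact Set.ncard_le_ncard Set.inter_subset_left hfin
  · exact W397.MF.oprop_ge W101.MF.wm W475.MF.oorb W366.MF.winj hg0 hl hl2 hr hc
      Set.inter_subset_left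
      (fun f hf => W397.MF.halved_good (W475.MF.real1 W85.MF.omeg) (by omega) hl hll5 hr f hf.2)
      (H l hl hla r hr κ)
  · obtain ⟨r, hrz⟩ : ∃ r : ℕ, (z : ZMod l) = (r : ZMod l) :=
      ⟨(z : ZMod l).val, by rw [ZMod.natCast_val, ZMod.cast_id', id]⟩
    have hr : ¬ l ∣ r := by
      intro h
      apply hz
      rw [← ZMod.intCast_zmod_eq_zero_iff_dvd, hrz, ZMod.natCast_eq_zero_iff]
      exact h
    exact W29.MF.eprop_ge W101.MF.wm W333.MF.eorb W366.MF.winj hg0 hl hl2 hr hrz he hc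
      Set.inter_subset_left
      (fun f hf => W29.MF.ehalved_good (W475.MF.real1 W85.MF.omeg) W101.MF.ereal1 (by omega) hl
        hll5 hr he f hf.2 (halved_eval W101.MF.wm hl κ hf.2).1
        (halved_eval W101.MF.wm hl κ hf.2).2)
      (H l hl hla r hr κ)

section Fam

variable {k : Type u} [Field k] {𝒱 : VarClass k} {ops : CycleOps 𝒱}
  {W : WeilCohomology.{u, v} ops} {Y : 𝒱.Obj} {p : ℕ} {Φ : FrobSystem W p}

/-- The proportions in a family. -/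
theorem fam_dens {F : Family W Y} {d n g e l₀ : ℕ} {δ : ℤˣ} {D : ℤ[X]}
    {π : ∀ m l : ℕ, Set (ZMod l)[X] → ℝ} (h : Fam.HasLaw F Φ d n g e l₀ δ D π) (a : ℕ)
    (ha : 2 ≤ a) (hag : a ≤ g) : ∃ c : ℝ, 0 < c ∧ ∃ l₁ : ℕ, ∀ l : ℕ, l.Prime → l₁ ≤ l →
      ¬ l ∣ p → ∀ m : ℕ, c ≤ π m l (facSet a g l) := by
  obtain ⟨b, rfl⟩ := Nat.exists_eq_add_of_le hag
  obtain ⟨c, hc, l₁, H⟩ := fdens a b ha
  refine ⟨c, hc, l₁, fun l hl hll hlp m => ?_⟩
  obtain ⟨h1, h2, h3⟩ := H l hl hll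
  rcases h.law with ⟨he, hπ⟩ | ⟨he, hd, hg3, κ, hπ⟩ | ⟨he, hd, hg3, α, κ, hπ⟩
  · rw [hπ, law_symp]
    exact h1 _ fun h => hlp (hl.dvd_of_dvd_pow h)
  · rw [hπ, law_orth]
    exact h2 _ (fun h => hlp (hl.dvd_of_dvd_pow h)) _
  · have hlr : ¬ (l : ℤ) ∣ (δ * (p : ℤ) ^ (n * m) : ℤ) := by
      intro hdvd
      have hnat : (δ * (p : ℤ) ^ (n * m) : ℤ).natAbs = p ^ (n * m) := by
        rcases unit_sq δ ((p : ℤ) ^ (n * m)) with h | h <;> rw [h]
        · rw [Int.natAbs_pow, Int.natAbs_natCast]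
        · rw [Int.natAbs_neg, Int.natAbs_pow, Int.natAbs_natCast]
      rw [Int.natCast_dvd, hnat] at hdvd
      exact hlp (hl.dvd_of_dvd_pow hdvd)
    rw [hπ, law_ext]
    exact h3 _ hlr e he _ _

end Fam

end Pool.Agent.W5h58.GN
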