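import Pool.Agent.W5h58.GT.Fix
import Pool.Agent.W5h58.GN.CNT

/-!
# A Frobenius element which permutes some roots cyclically and fixes the others
-/

set_option autoImplicit false

namespace Pool.Agent.W5h58.GN

open Polynomial NumberField Pool.Agent.W521.Frob Pool.Agent.W458.MF

/-- **The Frobenius element of a pattern.** -/
theorem frob_pat {I : Type} (h : I → ℤ[X]) (hm : ∀ i, (h i).Monic)
    (L : Type) [Field L] [NumberField L] [IsGalois ℚ L]
    (hsplit : ∀ i, ((h i).map (algebraMap ℤ L)).Splits)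
    (i₀ : I) (l : ℕ) (hl : l.Prime) {a : ℕ} (ha : 2 ≤ a)
    (hpat : (h i₀).map (Int.castRingHom (ZMod l)) ∈ facSet a (h i₀).natDegree l)
    (hoth : ∀ i, i ≠ i₀ → ∃ T : Finset (ZMod l),
      (h i).map (Int.castRingHom (ZMod l)) = ∏ t ∈ T, (X - C t)) :
    ∃ (σ : L ≃ₐ[ℚ] L) (A : Finset L), A.card = a ∧ (∀ θ ∈ A, aeval θ (h i₀) = 0) ∧
      (∀ θ, aeval θ (h i₀) = 0 → θ ∉ A → σ θ = θ) ∧
      (∀ θ ∈ A, ∀ θ' ∈ A, ∃ g ∈ Subgroup.zpowers σ, g θ = θ') ∧
      ∀ i, i ≠ i₀ → ∀ θ, aeval θ (h i) = 0 → σ θ = θ := by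
  classical
  have : Fact l.Prime := ⟨hl⟩
  obtain ⟨T, v, hvm, hvdeg, hvirr, hTc, hfac⟩ := hpat
  obtain ⟨k, _, hchar, φ, σ, hσ⟩ := exists_frob L l hl
  let ψ : ZMod l →+* k := ZMod.castHom dvd_rfl k
  have hψ : Function.Injective ψ := ψ.injective
  -- no roots of `v` in the prime field
  have hvroot : ∀ s : ZMod l, v.eval s ≠ 0 := by
    intro s hs
    have h4 := degree_eq_one_of_irreducible_of_root hvirr hs
    have h5 : v.natDegree = 1 := natDegree_eq_of_degree_eq_some h4
    omega
  -- separability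
  have hsepP : ∀ T : Finset (ZMod l), (∏ t ∈ T, (X - C t) : (ZMod l)[X]).Separable := by
    intro T
    rw [separable_prod_X_sub_C_iff']
    intro x _ y _ h
    exact h
  have hsep0 : ∀ i, ((h i).map (Int.castRingHom (ZMod l))).Separable := by
    intro i
    by_cases hi : i = i₀
    · subst hi
      rw [hfac]
      apply Separable.mul (hsepP T) (PerfectField.separable_of_irreducible hvirr)
      apply IsCoprime.prod_left
      intro t _
      rw [(irreducible_X_sub_C t).coprime_iff_not_dvd]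
      intro hd
      exact hvroot t (dvd_iff_isRoot.mp hd)
    · obtain ⟨T', hT'⟩ := hoth i hi
      rw [hT']
      exact hsepP T'
  have hmapk : ∀ i, (h i).map (Int.castRingHom k) =
      ((h i).map (Int.castRingHom (ZMod l))).map ψ := by
    intro i
    rw [Polynomial.map_map]
    congr 1
    exact (RingHom.ext_int _ _).symm
  have hsep : ∀ i, ((h i).map (Int.castRingHom k)).Separable := by
    intro i
    rw [hmapk]
    exact (hsep0 i).map
  -- reductions of roots
  have hroot : ∀ i, ∀ b : 𝓞 L, aeval b (h i) = 0 →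
      (((h i).map (Int.castRingHom (ZMod l))).map ψ).eval (φ b) = 0 := by
    intro i b hb
    have h1 : ((h i).map (Int.castRingHom k)).eval (φ b) = 0 := by
      have h2 : φ (eval₂ (Int.castRingHom (𝓞 L)) b (h i)) = 0 := by
        have h3 : eval₂ (Int.castRingHom (𝓞 L)) b (h i) = aeval b (h i) := rfl
        rw [h3, hb, map_zero]
      rw [Polynomial.hom_eval₂] at h2
      rw [eval_map]
      rwa [RingHom.ext_int (φ.comp (Int.castRingHom (𝓞 L))) (Int.castRingHom k)] at h2
    rwa [hmapk] at h1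
  have hprod : ∀ (T : Finset (ZMod l)) (x : k),
      ((∏ t ∈ T, (X - C t) : (ZMod l)[X]).map ψ).eval x = 0 → ∃ t ∈ T, x = ψ t := by
    intro T x hx
    rw [Polynomial.map_prod, eval_prod, Finset.prod_eq_zero_iff] at hx
    obtain ⟨t, ht, hx⟩ := hx
    rw [Polynomial.map_sub, map_X, map_C, eval_sub, eval_X, eval_C, sub_eq_zero] at hx
    exact ⟨t, ht, hx⟩
  -- lifting of roots
  have hlift : ∀ R : Multiset L, (∀ x ∈ R, IsIntegral ℤ x) →
      ∃ R' : Multiset (𝓞 L), R'.map (algebraMap (𝓞 L) L) = R := by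
    intro R
    induction R using Multiset.induction_on with
    | empty => exact fun _ => ⟨0, rfl⟩
    | cons a s ih =>
      intro hR
      obtain ⟨R', hR'⟩ := ih fun x hx => hR x (Multiset.mem_cons_of_mem hx)
      obtain ⟨a', ha'⟩ : ∃ a' : 𝓞 L, algebraMap (𝓞 L) L a' = a :=
        ⟨⟨a, hR a (Multiset.mem_cons_self a s)⟩, rfl⟩
      refine ⟨a' ::ₘ R', ?_⟩
      rw [Multiset.map_cons, hR', ha']
  have hint : ∀ i, ∀ θ : L, aeval θ (h i) = 0 → ∃ b : 𝓞 L, (b : L) = θ ∧ aeval b (h i) = 0 := by
    intro i θ hθ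
    have h1 : IsIntegral ℤ θ := ⟨h i, hm i, hθ⟩
    refine ⟨⟨θ, h1⟩, rfl, ?_⟩
    apply RingOfIntegers.coe_injective
    have h5 := aeval_algebraMap_apply L (⟨θ, h1⟩ : 𝓞 L) (h i)
    exact h5.symm.trans (hθ.trans (map_zero _).symm)
  have hψl : ∀ x : ZMod l, ψ x ^ l = ψ x := by
    intro x
    rw [← map_pow, ZMod.pow_card]
  have hsmul' : ∀ (g : L ≃ₐ[ℚ] L) (x : 𝓞 L), ((g • x : 𝓞 L) : L) = g (x : L) := fun g x => rfl
  have hgt : ∀ i, ∀ (g : L ≃ₐ[ℚ] L) (b : 𝓞 L), aeval b (h i) = 0 → aeval (g • b) (h i) = 0 := by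
    intro i g b hb
    apply RingOfIntegers.coe_injective
    have h1 := aeval_algebraMap_apply L (g • b) (h i)
    have h2 := aeval_algebraMap_apply L b (h i)
    rw [hb, map_zero] at h2
    have h3 : aeval (g ((algebraMap (𝓞 L) L) b)) (h i) =
        g (aeval ((algebraMap (𝓞 L) L) b) (h i)) := by
      change eval₂ _ _ _ = g (eval₂ _ _ _)
      rw [← AlgEquiv.coe_ringEquiv g, ← RingEquiv.coe_toRingHom, Polynomial.hom_eval₂]
      congr 1
      exact RingHom.ext_int _ _
    rw [h2, map_zero] at h3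
    exact h1.symm.trans (h3.trans (map_zero _).symm)
  -- roots over the prime field are fixed
  have hfixed : ∀ i, ∀ b : 𝓞 L, aeval b (h i) = 0 → ∀ t : ZMod l, φ b = ψ t → σ • b = b := by
    intro i b hb t ht
    refine eq_of_map_eq φ (h i) (hsep i) (σ • b) b (hgt i σ b hb) hb ?_
    rw [hσ, ht, hψl]
  -- all the roots
  obtain ⟨B, hBc, hB⟩ : ∃ B : Finset (𝓞 L), B.card = (h i₀).natDegree ∧
      ∀ b, b ∈ B ↔ aeval b (h i₀) = 0 := by
    obtain ⟨R', hR'⟩ := hlift ((h i₀).map (algebraMap ℤ L)).roots (by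
      intro x hx
      have h1 := (mem_roots'.1 hx).2
      rw [IsRoot.def, eval_map] at h1
      exact ⟨h i₀, hm i₀, h1⟩)
    have h1 : (h i₀).map (algebraMap ℤ L) = ((h i₀).map (algebraMap ℤ (𝓞 L))).map
        (algebraMap (𝓞 L) L) := by
      rw [Polynomial.map_map]
      congr 1
    have h2 : (h i₀).map (algebraMap ℤ (𝓞 L)) = (R'.map (fun a => X - C a)).prod := by
      apply Polynomial.map_injective (algebraMap (𝓞 L) L) RingOfIntegers.coe_injective
      rw [← h1, (hsplit i₀).eq_prod_roots_of_monic ((hm i₀).map _), ← hR',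
        Polynomial.map_multiset_prod, Multiset.map_map, Multiset.map_map]
      congr 1
      refine Multiset.map_congr rfl fun x _ => ?_
      simp
    have h4 : (h i₀).map (Int.castRingHom k) = ((R'.map φ).map (fun a => X - C a)).prod := by
      have h5 : (h i₀).map (Int.castRingHom k) = ((h i₀).map (algebraMap ℤ (𝓞 L))).map φ := by
        rw [Polynomial.map_map]
        congr 1
        exact RingHom.ext_int _ _
      rw [h5, h2, Polynomial.map_multiset_prod, Multiset.map_map, Multiset.map_map]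
      congr 1
      refine Multiset.map_congr rfl fun x _ => ?_
      simp
    have h6 : (R'.map φ).Nodup := by
      have h7 := hsep i₀
      rw [h4] at h7
      exact nodup_of_separable_prod h7
    have h7 : R'.Nodup := h6.of_map
    have h8 : R'.card = (h i₀).natDegree := by
      rw [← Multiset.card_map (algebraMap (𝓞 L) L) R', hR', splits_iff_card_roots.1 (hsplit i₀),
        (hm i₀).natDegree_map]
    refine ⟨R'.toFinset, by rw [Multiset.toFinset_card_of_nodup h7, h8], fun b => ?_⟩
    rw [Multiset.mem_toFinset]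
    have h9 : aeval b (h i₀) = ((h i₀).map (algebraMap ℤ (𝓞 L))).eval b := by
      rw [eval_map]
      rfl
    rw [h9, h2, eval_multiset_prod, Multiset.prod_eq_zero_iff, Multiset.mem_map]
    constructor
    · intro hb
      exact ⟨X - C b, Multiset.mem_map.2 ⟨b, hb, rfl⟩, by simp⟩
    · rintro ⟨u, hu, hu0⟩
      obtain ⟨c, hc, rfl⟩ := Multiset.mem_map.1 hu
      rw [eval_sub, eval_X, eval_C, sub_eq_zero] at hu0
      rwa [hu0]
  have hinj : ∀ b ∈ B, ∀ b' ∈ B, φ b = φ b' → b = b' := fun b hb b' hb' e =>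
    eq_of_map_eq φ (h i₀) (hsep i₀) b b' ((hB b).1 hb) ((hB b').1 hb') e
  set A' : Finset (𝓞 L) := B.filter fun b => (v.map ψ).eval (φ b) = 0 with hA'
  have hrest : ∀ b ∈ B, b ∉ A' → ∃ t ∈ T, φ b = ψ t := by
    intro b hb hbA
    have h1 := hroot i₀ b ((hB b).1 hb)
    rw [hfac, Polynomial.map_mul, eval_mul, mul_eq_zero] at h1
    rcases h1 with h1 | h1
    · exact hprod T _ h1
    · exact absurd (Finset.mem_filter.2 ⟨hb, h1⟩) hbA
  have hA'c : A'.card = a := by
    apply le_antisymm
    · have h1 : A'.card ≤ (v.map ψ).roots.toFinset.card := by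
        refine Finset.card_le_card_of_injOn φ ?_ ?_
        · intro b hb
          have h2 := (Finset.mem_filter.1 hb).2
          rw [Finset.mem_coe, Multiset.mem_toFinset, mem_roots (hvm.map ψ).ne_zero]
          exact h2
        · intro b hb b' hb' e
          exact hinj b (Finset.mem_filter.1 hb).1 b' (Finset.mem_filter.1 hb').1 e
      refine h1.trans ((Multiset.toFinset_card_le _).trans ((card_roots' _).trans ?_))
      rw [natDegree_map, hvdeg]
    · have h1 : (B \ A').card ≤ (T.image ψ).card := by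
        refine Finset.card_le_card_of_injOn φ ?_ ?_
        · intro b hb
          rw [Finset.mem_coe, Finset.mem_sdiff] at hb
          obtain ⟨t, ht, he⟩ := hrest b hb.1 hb.2
          rw [Finset.mem_coe, he]
          exact Finset.mem_image_of_mem ψ ht
        · intro b hb b' hb' e
          rw [Finset.mem_coe, Finset.mem_sdiff] at hb hb'
          exact hinj b hb.1 b' hb'.1 e
      have h2 : (T.image ψ).card ≤ T.card := Finset.card_image_le
      have h3 : (B \ A').card + A'.card = B.card :=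
        Finset.card_sdiff_add_card_eq_card (Finset.filter_subset _ _)
      omega
  have hprime : ∀ x : k, x ^ l = x → ∃ s : ZMod l, ψ s = x := by
    intro x hx
    by_contra hno
    push Not at hno
    have hq : (X ^ l - X : k[X]) ≠ 0 := FiniteField.X_pow_card_sub_X_ne_zero k hl.one_lt
    have hdegq : (X ^ l - X : k[X]).natDegree = l :=
      FiniteField.X_pow_card_sub_X_natDegree_eq k hl.one_lt
    have hsub : insert x (Finset.univ.image ψ) ⊆ (X ^ l - X : k[X]).roots.toFinset := by
      intro y hy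
      rw [Multiset.mem_toFinset, mem_roots hq, IsRoot.def, eval_sub, eval_pow, eval_X, sub_eq_zero]
      rw [Finset.mem_insert, Finset.mem_image] at hy
      rcases hy with rfl | ⟨s, _, rfl⟩
      · exact hx
      · exact hψl s
    have hc1 := Finset.card_le_card hsub
    have hc2 : (X ^ l - X : k[X]).roots.toFinset.card ≤ l :=
      (Multiset.toFinset_card_le _).trans ((card_roots' _).trans hdegq.le)
    rw [Finset.card_insert_of_notMem, Finset.card_image_of_injective _ hψ, Finset.card_univ,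
      ZMod.card] at hc1
    · omega
    · intro hx
      rw [Finset.mem_image] at hx
      obtain ⟨s, _, hs⟩ := hx
      exact hno s hs
  refine ⟨σ, A'.image (algebraMap (𝓞 L) L), ?_, ?_, ?_, ?_, ?_⟩
  · rw [Finset.card_image_of_injective _ RingOfIntegers.coe_injective, hA'c]
  · intro θ hθ
    obtain ⟨b, hb, rfl⟩ := Finset.mem_image.1 hθ
    rw [aeval_algebraMap_apply, (hB b).1 (Finset.mem_filter.1 hb).1, map_zero]
  · intro θ hθ hθA
    obtain ⟨b, rfl, hb⟩ := hint i₀ θ hθ
    have hbB : b ∈ B := (hB b).2 hb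
    have hbA : b ∉ A' := fun h => hθA (Finset.mem_image_of_mem _ h)
    obtain ⟨t, -, ht⟩ := hrest b hbB hbA
    rw [← hsmul', hfixed i₀ b hb t ht]
  · intro θ hθ θ' hθ'
    obtain ⟨b, hbA, rfl⟩ := Finset.mem_image.1 hθ
    obtain ⟨b', hbA', rfl⟩ := Finset.mem_image.1 hθ'
    rw [hA', Finset.mem_filter] at hbA hbA'
    -- the orbit
    set O : Finset (𝓞 L) := Finset.univ.image
      (fun g : Subgroup.zpowers σ => (g : L ≃ₐ[ℚ] L) • b) with hO
    have hOσ : O.image (fun x => σ • x) = O := by
      apply Finset.eq_of_subset_of_card_le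
      · intro x hx
        rw [Finset.mem_image] at hx
        obtain ⟨y, hy, rfl⟩ := hx
        rw [hO, Finset.mem_image] at hy ⊢
        obtain ⟨g, -, rfl⟩ := hy
        exact ⟨⟨σ, Subgroup.mem_zpowers σ⟩ * g, Finset.mem_univ _, by
          rw [Subgroup.coe_mul, mul_smul]⟩
      · rw [Finset.card_image_of_injective _ (MulAction.injective σ)]
    set G : k[X] := ∏ x ∈ O, (X - C (φ x)) with hG
    have hGl : G.map (frobenius k l) = G := by
      rw [hG, Polynomial.map_prod]
      conv_rhs => rw [← hOσ, Finset.prod_image fun x _ y _ h => MulAction.injective σ h]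
      refine Finset.prod_congr rfl fun x _ => ?_
      rw [Polynomial.map_sub, map_X, map_C, frobenius_def, hσ]
    have hcoef : ∀ n, ∃ s : ZMod l, ψ s = G.coeff n := by
      intro n
      apply hprime
      have h1 := congrArg (fun f : k[X] => f.coeff n) hGl
      simp only [coeff_map, frobenius_def] at h1
      exact h1
    obtain ⟨w, hw⟩ : ∃ w : (ZMod l)[X], w.map ψ = G := by
      have h1 : G ∈ Polynomial.lifts ψ := by
        rw [Polynomial.lifts_iff_coeff_lifts]
        intro n
        obtain ⟨s, hs⟩ := hcoef n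
        exact ⟨s, hs⟩
      exact (Polynomial.mem_lifts G).1 h1
    have hbO : b ∈ O := by
      rw [hO, Finset.mem_image]
      exact ⟨1, Finset.mem_univ _, by rw [Subgroup.coe_one, one_smul]⟩
    have hvw : v ∣ w := by
      by_contra hnd
      have hcop := (hvirr.coprime_iff_not_dvd.2 hnd)
      obtain ⟨c₁, c₂, hc⟩ := hcop
      have h1 := congrArg (fun f : (ZMod l)[X] => (f.map ψ).eval (φ b)) hc
      simp only [Polynomial.map_add, Polynomial.map_mul, eval_add, eval_mul, Polynomial.map_one,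
        eval_one] at h1
      rw [hbA.2, hw, hG, eval_prod, Finset.prod_eq_zero hbO (by simp), mul_zero, mul_zero,
        add_zero] at h1
      exact zero_ne_one h1
    have h1 : G.eval (φ b') = 0 := by
      obtain ⟨w', rfl⟩ := hvw
      rw [← hw, Polynomial.map_mul, eval_mul, hbA'.2, zero_mul]
    rw [hG, eval_prod, Finset.prod_eq_zero_iff] at h1
    obtain ⟨x, hx, hx2⟩ := h1
    rw [eval_sub, eval_X, eval_C, sub_eq_zero] at hx2
    rw [hO, Finset.mem_image] at hx
    obtain ⟨g, -, rfl⟩ := hx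
    have h2 : b' = (g : L ≃ₐ[ℚ] L) • b :=
      eq_of_map_eq φ (h i₀) (hsep i₀) b' _ ((hB b').1 hbA'.1) (hgt i₀ _ _ ((hB b).1 hbA.1)) hx2
    exact ⟨g, g.2, by rw [← hsmul', ← h2]⟩
  · intro i hi θ hθ
    obtain ⟨b, rfl, hb⟩ := hint i θ hθ
    obtain ⟨T', hT'⟩ := hoth i hi
    have h1 := hroot i b hb
    rw [hT'] at h1
    obtain ⟨t, -, ht⟩ := hprod T' _ h1
    rw [← hsmul', hfixed i b hb t ht]

end Pool.Agent.W5h58.GN
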