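import Pool.Agent.W5h58.GT.Setup
import Pool.Agent.W5h58.GN.Dens
import Pool.Agent.W5h58.GN.Perm

/-!
# Almost all tuples of members have all permutations
-/

set_option autoImplicit false

open CategoryTheory AlgebraicGeometry Polynomial NumberField

universe u v

namespace Pool.Agent.W5h58.GN

open Pool.Agent.H914 Pool.Agent.W534 Pool.Agent.W521.Frob Pool.Agent.W521.Criterion VarClass Obj
  WeilCohomology Pool.Agent.W458.MF Pool.Agent.W338.MF Pool.Agent.W928.MF Pool.Agent.W5h58.GT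

variable {k : Type u} [Field k] {𝒱 : VarClass k} {ops : CycleOps 𝒱}
  {W : WeilCohomology.{u, v} ops} {Y : 𝒱.Obj} {p : ℕ} {Φ : FrobSystem W p}

/-- The patterns which imply that there are all permutations. -/
def HasPats {I : Type} (h : I → ℤ[X]) : Prop :=
  ∀ i, (2 ≤ (h i).natDegree → ∃ l : ℕ, l.Prime ∧ Pat h i (h i).natDegree l) ∧
    (3 ≤ (h i).natDegree → ∃ l : ℕ, l.Prime ∧ Pat h i ((h i).natDegree - 1) l) ∧
    (2 ≤ (h i).natDegree → ∃ l : ℕ, l.Prime ∧ Pat h i 2 l)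

/-- The degree of the irreducible factor. -/
def degs (e : Fin 3) (g : ℕ) : ℕ :=
  match e with
  | 0 => g
  | 1 => g - 1
  | 2 => 2

open Classical in
/-- The patterns. -/
noncomputable def evts2 {I : Type} (d g : I → ℕ) (p : ℕ) (κ : I × Fin 3) (i : I)
    (m l : ℕ) : Set (ZMod l)[X] :=
  if i = κ.1 then
    (if 2 ≤ degs κ.2 (g i) ∧ degs κ.2 (g i) ≤ g i then facSet (degs κ.2 (g i)) (g i) l else
      Set.univ)
  else splitSet (g i) l (p ^ (d i * m))

theorem setup_pats (hp : p.Prime) {I : Type} [Fintype I] (F : I → Family W Y)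
    (d n g e l₀ : I → ℕ) (δ : I → ℤˣ) (D : I → ℤ[X]) (π : I → ∀ m l : ℕ, Set (ZMod l)[X] → ℝ)
    (hF : ∀ i, Fam.HasLaw (F i) Φ (d i) (n i) (g i) (e i) (l₀ i) (δ i) (D i) (π i)) (ε : ℝ)
    (hε : 0 < ε) :
    ∃ (m₀ : ℕ), ∀ m ≥ m₀, ({s : ∀ i, (F i).S m |
        ¬ HasPats (fun i => ((F i).member m (s i)).pol)}.ncard : ℝ) ≤
      ε * ∏ i, (Nat.card ((F i).S m) : ℝ) := by
  classical
  have hD : St_DENS := W806.MF.dens W337.MF.orb W366.MF.winj W205.MF.cnt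
  choose o ho hM using fun i => mdata_o hD st_odens st_edens (hF i)
  have hempty : ∀ m, (∃ i, IsEmpty ((F i).S m)) → ∀ B : Set (∀ i, (F i).S m),
      (B.ncard : ℝ) ≤ ε * ∏ i, (Nat.card ((F i).S m) : ℝ) := by
    rintro m ⟨i, hi⟩ B
    have : IsEmpty (∀ i, (F i).S m) := ⟨fun s => hi.false (s i)⟩
    rw [Set.eq_empty_of_isEmpty B, Set.ncard_empty, Nat.cast_zero]
    positivity
  by_cases hg : ∀ i, 0 < g i
  swap
  · push Not at hg
    obtain ⟨i, hi⟩ := hg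
    refine ⟨1, fun m hm => hempty m ⟨i, ⟨fun s => ?_⟩⟩ _⟩
    have h1 := ((hM i).isMember m hm s).degree_pos
    rw [(hM i).degree m s] at h1
    omega
  choose c hc l₁ hl₁ using fun i => (hM i).dens (hg i) 1 one_pos
  have hfd : ∀ (κ : I × Fin 3), ∃ c : ℝ, 0 < c ∧ ∃ l₂ : ℕ, ∀ l : ℕ, l.Prime → l₂ ≤ l → ¬ l ∣ p →
      ∀ m : ℕ, c ≤ π κ.1 m l (if 2 ≤ degs κ.2 (g κ.1) ∧ degs κ.2 (g κ.1) ≤ g κ.1 then
        facSet (degs κ.2 (g κ.1)) (g κ.1) l else Set.univ) := by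
    intro κ
    split_ifs with hcond
    · exact fam_dens (hF κ.1) _ hcond.1 hcond.2
    · refine ⟨c κ.1, hc κ.1, l₁ κ.1, fun l hl hll hlp m => ?_⟩
      exact (hl₁ κ.1 l hl hll hlp m).1.trans ((hM κ.1).mono l hl m _ _ (Set.subset_univ _))
  choose c' hc' l₂ hl₂ using hfd
  obtain ⟨c₀, hc₀, hc₀c, hc₀c'⟩ : ∃ c₀ : ℝ, 0 < c₀ ∧ (∀ i, c₀ ≤ c i) ∧ ∀ κ, c₀ ≤ c' κ := by
    rcases isEmpty_or_nonempty I with hI | hI
    · exact ⟨1, one_pos, fun i => hI.elim i, fun κ => hI.elim κ.1⟩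
    · obtain ⟨i, hi⟩ := Finite.exists_min c
      obtain ⟨κ, hκ⟩ := Finite.exists_min c'
      exact ⟨min (c i) (c' κ), lt_min (hc i) (hc' κ), fun j => (min_le_left _ _).trans (hi j),
        fun j => (min_le_right _ _).trans (hκ j)⟩
  set L : ℕ := p + 3 + ∑ i, (l₀ i + l₁ i) + ∑ κ : I × Fin 3, l₂ κ with hL
  have hLi : ∀ i, l₀ i + l₁ i ≤ L := fun i => by
    have := Finset.single_le_sum (f := fun i => l₀ i + l₁ i) (fun j _ => Nat.zero_le _)
      (Finset.mem_univ i)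
    omega
  have hLκ : ∀ κ, l₂ κ ≤ L := fun κ => by
    have := Finset.single_le_sum (f := fun κ => l₂ κ) (fun j _ => Nat.zero_le _)
      (Finset.mem_univ κ)
    omega
  -- the primes
  obtain ⟨A, hA, hAs, hAd⟩ := exists_common D (fun i => (hM i).monic) (fun i => (hM i).separable)
  set G : Set ℕ := {l : ℕ | l.Prime ∧ SplitsMod A l} \ {l | l ≤ L} with hG
  have hinf : G.Infinite := (W976.MF.SPL A hA hAs).sdiff (Set.finite_le_nat L)
  have hGp : ∀ l ∈ G, l.Prime ∧ SplitsMod A l ∧ L < l := fun l hl =>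
    ⟨hl.1.1, hl.1.2, not_le.1 hl.2⟩
  have hGD : ∀ i, ∀ l ∈ G, l ∈ {l | l.Prime ∧ l₀ i ≤ l ∧ SplitsMod (D i) l} := by
    intro i l hl
    obtain ⟨h1, h2, h3⟩ := hGp l hl
    have h4 := hLi i
    exact ⟨h1, by omega, splitsMod_of_dvd (hM i).monic (hAd i) h1 h2⟩
  have hGlp : ∀ l ∈ G, ¬ l ∣ p := by
    intro l hl h
    have h1 := (hGp l hl).2.2
    have h3 := Nat.le_of_dvd hp.pos h
    omega
  have hE : ∀ (κ : I × Fin 3) i, ∀ l ∈ G, ∀ m, c₀ ≤ π i m l (evts2 d g p κ i m l) := by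
    intro κ i l hl m
    have h3 := (hGp l hl).2.2
    unfold evts2
    split_ifs with hi hcond
    · have h4 := hLκ κ
      have h5 := hl₂ κ l (hGp l hl).1 (by omega) (hGlp l hl) m
      rw [if_pos (by rw [← hi]; exact hcond), ← hi] at h5
      exact (hc₀c' κ).trans h5
    · have h4 := hLi i
      have h5 := hl₁ i l (hGp l hl).1 (by omega) (hGlp l hl) m
      exact (hc₀c i).trans (h5.1.trans ((hM i).mono l (hGp l hl).1 m _ _ (Set.subset_univ _)))
    · have h4 := hLi i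
      have h5 := hl₁ i l (hGp l hl).1 (by omega) (hGlp l hl) m
      exact (hc₀c i).trans h5.2.1
  obtain ⟨m₀, h⟩ := almost_all_gen W216.MF.sieve (K := I × Fin 3) F G hinf π
    (fun i l hl l' hl' hll => (hM i).equi l (hGD i l hl) l' (hGD i l' hl') hll)
    (fun i l hl m E => (hM i).nonneg l (hGp l hl).1 m E)
    (fun i l hl m E => (hM i).le_one l (hGp l hl).1 m E)
    (evts2 d g p) hc₀ hE ε hε
  refine ⟨m₀, fun m hm => le_trans ?_ (h m hm)⟩
  refine Nat.cast_le.2 (Set.ncard_le_ncard ?_ (Set.toFinite _))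
  intro s hs hpat
  apply hs
  have hdeg : ∀ i, ((F i).member m (s i)).pol.natDegree = g i := fun i => (hM i).degree m (s i)
  have key : ∀ (i : I) (e : Fin 3), 2 ≤ degs e (g i) → degs e (g i) ≤ g i →
      ∃ l : ℕ, l.Prime ∧ Pat (fun i => ((F i).member m (s i)).pol) i (degs e (g i)) l := by
    intro i e h1 h2
    obtain ⟨l, hl, h3⟩ := hpat (i, e)
    refine ⟨l, (hGp l hl).1, ?_, fun j hj => ?_⟩
    · have h4 := h3 i
      unfold evts2 at h4
      rw [if_pos rfl, if_pos ⟨h1, h2⟩] at h4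
      dsimp only
      rw [hdeg i]
      exact h4
    · have h4 := h3 j
      unfold evts2 at h4
      rw [if_neg hj] at h4
      obtain ⟨T, -, hT, -⟩ := h4
      exact ⟨T, hT⟩
  intro i
  refine ⟨fun h1 => ?_, fun h1 => ?_, fun h1 => ?_⟩
  · dsimp only at h1 ⊢
    rw [hdeg i] at h1 ⊢
    exact key i 0 h1 le_rfl
  · dsimp only at h1 ⊢
    rw [hdeg i] at h1 ⊢
    exact key i 1 (by change 2 ≤ g i - 1; omega) (by change g i - 1 ≤ g i; omega)
  · dsimp only at h1 ⊢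
    rw [hdeg i] at h1
    exact key i 2 le_rfl h1

end Pool.Agent.W5h58.GN
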